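import Pool.Agent.Helper76.DE.StN

/-!
# Project PRD, module Fb: one block
-/

set_option autoImplicit false

noncomputable section

namespace Pool.Agent.Helper76.PRD

open Pool.Agent.Helper76.ND Pool.Agent.Helper76.DE Finset

/-- choice of the scale `x` -/
theorem choose_x (x0 C η : ℝ) (m1 : ℕ) (hC : 0 < C) (hη : 0 < η) :
    ∃ x : ℝ, x0 ≤ x ∧ 1 ≤ x ∧ m1 ≤ mm x ∧ C * Real.log x ^ (-(1 / 3200) : ℝ) ≤ η := by
  have h1 : Filter.Tendsto (fun x : ℝ => Real.log x ^ (-(1 / 3200) : ℝ)) Filter.atTop (nhds 0) :=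
    (tendsto_rpow_neg_atTop (by norm_num : (0 : ℝ) < 1 / 3200)).comp Real.tendsto_log_atTop
  have h2 : ∀ᶠ x : ℝ in Filter.atTop, Real.log x ^ (-(1 / 3200) : ℝ) < η / C :=
    h1.eventually_lt_const (by positivity)
  have h3 : Filter.Tendsto (fun x : ℝ => Real.log x ^ (1 / 8 : ℝ)) Filter.atTop Filter.atTop :=
    (tendsto_rpow_atTop (by norm_num : (0 : ℝ) < 1 / 8)).comp Real.tendsto_log_atTop
  have h4 : ∀ᶠ x : ℝ in Filter.atTop, (m1 : ℝ) ≤ Real.log x ^ (1 / 8 : ℝ) :=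
    h3.eventually_ge_atTop _
  obtain ⟨x, hx1, hx2, hx3, hx4⟩ := (h2.and (h4.and ((Filter.eventually_ge_atTop x0).and
    (Filter.eventually_ge_atTop 1)))).exists
  refine ⟨x, hx3, hx4, ?_, ?_⟩
  · have h5 : (m1 : ℝ) ≤ mm x := le_trans hx2 (Nat.le_ceil _)
    exact_mod_cast h5
  · have := mul_le_mul_of_nonneg_left hx1.le hC.le
    rwa [mul_div_cancel₀ _ hC.ne'] at this

theorem rho_pos : 0 < rho := by
  unfold rho
  exact div_pos (Real.log_pos (by norm_num)) (by norm_num)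

theorem rho_le : rho ≤ 1 / 6 := by
  unfold rho
  have := Real.log_le_sub_one_of_pos (show (0 : ℝ) < 4 / 3 by norm_num)
  linarith

open Classical in
theorem hFb (hNs : StNs) (hPe : StPe) (hHit : StHit) (hPs : StPs) : StFb := by
  intro δ hδ ε hε
  obtain ⟨c1, hc1, m1, hPs⟩ := hPs (ε / 8) (by positivity)
  obtain ⟨x0, C, hx03, hC, hHit⟩ := hHit
  obtain ⟨x, hx0, hx1, hmx, hCx⟩ := choose_x x0 C (ε * c1 / 8) (max m1 1) hC (by positivity)
  set m := mm x with hm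
  have hm1 : m1 ≤ m := le_trans (le_max_left _ _) hmx
  have hm2 : 1 ≤ m := le_trans (le_max_right _ _) hmx
  have h3m : (0 : ℝ) < 3 ^ m := by positivity
  refine ⟨ε * c1 / 8, max (x ^ (103 / 100 : ℝ)) (3 ^ m + 1), by positivity, ?_, ?_⟩
  · refine le_trans ?_ (le_max_right _ _)
    linarith
  intro w hw
  have hw1 : x ^ (103 / 100 : ℝ) ≤ w := le_trans (le_max_left _ _) hw
  have hw2 : 3 ^ m + 1 ≤ w := le_trans (le_max_right _ _) hw
  have hw0 : 1 < w := by linarith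
  have hfl : (⌊2 * w⌋₊ : ℝ) ≤ 2 * w := Nat.floor_le (by linarith)
  have hcl : w ≤ (⌈w⌉₊ : ℝ) := Nat.le_ceil w
  have hab : ⌈w⌉₊ ≤ ⌊2 * w⌋₊ + 1 :=
    le_trans (Nat.ceil_mono (by linarith)) (Nat.ceil_le_floor_add_one _)
  -- the two parts
  set A1 := (Icc 1 ⌊2 * w⌋₊).filter (fun a : ℕ => w ≤ a ∧ δ a < ε * c1 / 8 / a ∧
    c1 ≤ 3 ^ m * pim m a) with hA1
  set A2 := (Ico ⌈w⌉₊ (⌊2 * w⌋₊ + 1)).filter (fun a : ℕ => ¬ 3 ∣ a ∧ 3 ^ m * pim m a < c1) with hA2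
  have hsub : (Icc 1 ⌊2 * w⌋₊).filter (fun a : ℕ => w ≤ a ∧ ¬ 3 ∣ a ∧ δ a < ε * c1 / 8 / a) ⊆
      A1 ∪ A2 := by
    intro a ha
    obtain ⟨ha1, ha2, ha3, ha4⟩ := Finset.mem_filter.1 ha
    rw [Finset.mem_union]
    by_cases h : c1 ≤ 3 ^ m * pim m a
    · exact Or.inl (Finset.mem_filter.2 ⟨ha1, ha2, ha4, h⟩)
    · refine Or.inr (Finset.mem_filter.2 ⟨?_, ha3, not_le.1 h⟩)
      have := Finset.mem_Icc.1 ha1
      refine Finset.mem_Ico.2 ⟨Nat.ceil_le.2 ha2, by omega⟩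
  -- first part
  have hc1' : (A1.card : ℝ) ≤ ε / 2 * w := by
    have hA1w : ∀ a ∈ A1, w ≤ (a : ℝ) ∧ (a : ℝ) ≤ 2 * w := by
      intro a ha
      obtain ⟨ha1, ha2, _⟩ := Finset.mem_filter.1 ha
      exact ⟨ha2, (Nat.le_floor_iff (by linarith)).1 (Finset.mem_Icc.1 ha1).2⟩
    have h1 := hHit x w A1 δ hx0 hw1 hA1w hδ
    have h2 : (A1.card : ℝ) * (c1 / (2 * w)) ≤ ∑ a ∈ A1, 3 ^ m * pim m a / a := by
      rw [← nsmul_eq_mul, ← Finset.sum_const]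
      refine Finset.sum_le_sum (fun a ha => ?_)
      obtain ⟨_, _, _, ha4⟩ := Finset.mem_filter.1 ha
      have h := hA1w a ha
      exact div_le_div₀ (le_trans hc1.le ha4) ha4 (by linarith) h.2
    have h3 : ∑ a ∈ A1, δ a ≤ A1.card * (ε * c1 / 8 / w) := by
      rw [← nsmul_eq_mul, ← Finset.sum_const]
      refine Finset.sum_le_sum (fun a ha => ?_)
      obtain ⟨_, _, ha3, _⟩ := Finset.mem_filter.1 ha
      have h := hA1w a ha
      refine le_trans ha3.le ?_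
      exact div_le_div_of_nonneg_left (by positivity) (by linarith) h.1
    have h4 : (A1.card : ℝ) ≤ 2 * w := by
      have h5 : A1 ⊆ Ico ⌈w⌉₊ (⌊2 * w⌋₊ + 1) := by
        intro a ha
        obtain ⟨ha1, ha2, _⟩ := Finset.mem_filter.1 ha
        have := Finset.mem_Icc.1 ha1
        exact Finset.mem_Ico.2 ⟨Nat.ceil_le.2 ha2, by omega⟩
      have h6 := Finset.card_le_card h5
      rw [Nat.card_Ico] at h6
      have h7 : (A1.card : ℝ) ≤ ((⌊2 * w⌋₊ + 1 - ⌈w⌉₊ : ℕ) : ℝ) := by exact_mod_cast h6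
      rw [Nat.cast_sub hab] at h7
      push_cast at h7
      linarith
    have h5 : ∑ a ∈ A1, δ a ≤ ε * c1 / 4 := by
      refine le_trans h3 ?_
      calc (A1.card : ℝ) * (ε * c1 / 8 / w) ≤ (2 * w) * (ε * c1 / 8 / w) :=
            mul_le_mul_of_nonneg_right h4 (by positivity)
        _ = ε * c1 / 4 := by field_simp; ring
    have h6 : rho * ∑ a ∈ A1, δ a ≤ 1 / 6 * (ε * c1 / 4) := by
      calc rho * ∑ a ∈ A1, δ a ≤ rho * (ε * c1 / 4) :=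
            mul_le_mul_of_nonneg_left h5 rho_pos.le
        _ ≤ _ := mul_le_mul_of_nonneg_right rho_le (by positivity)
    have h7 : (A1.card : ℝ) * (c1 / (2 * w)) ≤ ε * c1 / 4 := by
      have h8 : 0 < ε * c1 := by positivity
      linarith
    have h8 : (A1.card : ℝ) * (c1 / (2 * w)) = (A1.card : ℝ) * c1 / (2 * w) := by ring
    rw [h8, div_le_iff₀ (by linarith)] at h7
    have h9 : c1 * (A1.card : ℝ) ≤ c1 * (ε / 2 * w) := by linarith
    exact le_of_mul_le_mul_left h9 hc1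
  -- second part
  have hc2' : (A2.card : ℝ) ≤ ε / 4 * w := by
    set g : ℕ → ℝ := fun M => if ¬ 3 ∣ M ∧ 3 ^ m * pim m M < c1 then 1 else 0 with hg
    have hgper : ∀ M, g (M + 3 ^ m) = g M := by
      intro M
      have h1 : (3 ∣ M + 3 ^ m) ↔ 3 ∣ M := by
        have : 3 ∣ 3 ^ m := dvd_pow_self 3 (by omega)
        exact Nat.dvd_add_left this
      show (if ¬ 3 ∣ M + 3 ^ m ∧ 3 ^ m * pim m (M + 3 ^ m) < c1 then (1 : ℝ) else 0) =
        if ¬ 3 ∣ M ∧ 3 ^ m * pim m M < c1 then 1 else 0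
      rw [hNs.2.2.1]
      simp only [h1]
    have hg0 : ∀ M, 0 ≤ g M := by
      intro M
      show 0 ≤ (if ¬ 3 ∣ M ∧ 3 ^ m * pim m M < c1 then (1 : ℝ) else 0)
      split_ifs <;> norm_num
    have h1 := hPe.2 g (3 ^ m) ⌈w⌉₊ (⌊2 * w⌋₊ + 1) (Nat.one_le_pow _ _ (by norm_num)) hg0 hgper hab
    have h2 : ∑ M ∈ Ico ⌈w⌉₊ (⌊2 * w⌋₊ + 1), g M = A2.card := by
      rw [hA2, hg, ← Finset.sum_filter, Finset.sum_const, nsmul_eq_mul, mul_one]
    have h3 : ∑ M ∈ range (3 ^ m), g M ≤ ε / 8 * 3 ^ m := by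
      rw [hg, ← Finset.sum_filter, Finset.sum_const, nsmul_eq_mul, mul_one]
      exact hPs m hm1
    rw [h2] at h1
    push_cast at h1
    have h4 : ((⌊2 * w⌋₊ : ℝ) + 1 - ⌈w⌉₊) / 3 ^ m + 1 ≤ (w + 1) / 3 ^ m + 1 := by
      have : ((⌊2 * w⌋₊ : ℝ) + 1 - ⌈w⌉₊) / 3 ^ m ≤ (w + 1) / 3 ^ m :=
        div_le_div_of_nonneg_right (by linarith) h3m.le
      linarith
    have h5 : 0 ≤ (w + 1) / 3 ^ m + 1 := by positivity
    have h6 : 0 ≤ ∑ M ∈ range (3 ^ m), g M := Finset.sum_nonneg (fun M _ => hg0 M)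
    calc (A2.card : ℝ) ≤ (((⌊2 * w⌋₊ : ℝ) + 1 - ⌈w⌉₊) / 3 ^ m + 1) * ∑ M ∈ range (3 ^ m), g M := h1
      _ ≤ ((w + 1) / 3 ^ m + 1) * ∑ M ∈ range (3 ^ m), g M := mul_le_mul_of_nonneg_right h4 h6
      _ ≤ ((w + 1) / 3 ^ m + 1) * (ε / 8 * 3 ^ m) := mul_le_mul_of_nonneg_left h3 h5
      _ = ε / 8 * (w + 1 + 3 ^ m) := by field_simp
      _ ≤ ε / 8 * (2 * w) := mul_le_mul_of_nonneg_left (by linarith) (by positivity)
      _ = ε / 4 * w := by ring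
  have h1 := Finset.card_le_card hsub
  have h2 := Finset.card_union_le A1 A2
  have h3 : (((Icc 1 ⌊2 * w⌋₊).filter (fun a : ℕ => w ≤ a ∧ ¬ 3 ∣ a ∧
      δ a < ε * c1 / 8 / a)).card : ℝ) ≤ (A1.card : ℝ) + A2.card := by
    exact_mod_cast le_trans h1 h2
  have h4 : 0 < ε * w := by positivity
  linarith

end Pool.Agent.Helper76.PRD
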