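import Pool.Agent.Helper76.DE.StN

/-!
# Project PRD, module Hit: main inequality
-/

set_option autoImplicit false

noncomputable section

namespace Pool.Agent.Helper76.PRD

open Pool.Agent.Helper76.ND Pool.Agent.Helper76.DE Finset

theorem pS_mem (a N : ℕ) : 0 ≤ pS a N ∧ pS a N ≤ 1 := by
  unfold pS
  split_ifs <;> norm_num

theorem mu_nn (hPo : StPo) {y : ℝ} (hy : 0 < y) (N : ℕ) : 0 ≤ mu y N := by
  unfold mu
  exact div_nonneg (hPo.2.1 _).1 hy.le

theorem mu_zero (hPo : StPo) {y : ℝ} (hy : 0 < y) {N : ℕ}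
    (h : ¬ (y / 2 ≤ N ∧ (N : ℝ) ≤ 3 / 2 * y)) : mu y N = 0 := by
  unfold mu
  by_cases h1 : y / 2 ≤ N
  · have h2 : 3 / 2 * y < N := by
      by_contra hc
      exact h ⟨h1, not_lt.1 hc⟩
    rw [hPo.2.2.2.1 _ (by rw [le_div_iff₀ hy]; exact h2.le), zero_div]
  · have h1' : (N : ℝ) < y / 2 := not_le.1 h1
    rw [hPo.2.2.1 _ (by rw [div_le_iff₀ hy]; linarith), zero_div]

theorem II_mono (hPo : StPo) {y : ℝ} (hy : 0 < y) {f g : ℕ → ℝ} (h : ∀ N, f N ≤ g N) :
    II y f ≤ II y g := by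
  unfold II
  exact Finset.sum_le_sum (fun N _ => mul_le_mul_of_nonneg_left (h N) (mu_nn hPo hy N))

theorem II_sum (y : ℝ) (A : Finset ℕ) (g : ℕ → ℕ → ℝ) :
    II y (fun N => ∑ a ∈ A, g a N) = ∑ a ∈ A, II y (g a) := by
  unfold II
  rw [Finset.sum_comm]
  exact Finset.sum_congr rfl (fun N _ => Finset.mul_sum _ _ _)

theorem II_smul (y c : ℝ) (g : ℕ → ℝ) : II y (fun N => c * g N) = c * II y g := by
  unfold II
  rw [Finset.mul_sum]
  exact Finset.sum_congr rfl (fun N _ => by ring)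

theorem lim_pS (hPi : StPi) (hDx : StDx) {a : ℕ} (ha : 1 ≤ a) {δ : ℕ → ℝ} (hδ : DS δ)
    (hr : 0 < rho) :
    Filter.Tendsto (fun y : ℝ => II y (pS a)) Filter.atTop (nhds (rho * δ a)) := by
  obtain ⟨K, -, hK⟩ := hDx 1 one_pos
  obtain ⟨l, h1, h2, -⟩ := hK a (pS a) ha (pS_mem a) (hPi.1 a)
  have h3 : l / rho = δ a := tendsto_nhds_unique h2 (hδ a ha)
  have h4 : rho * δ a = l := by
    rw [← h3]
    field_simp
  rw [h4]
  exact h1

theorem upper (hPo : StPo) (hPi : StPi) (hDx : StDx) (hr : 0 < rho) {C : ℝ}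
    (hC : ∀ (B : ℕ) (y y' : ℝ) (f : ℕ → ℝ), 1 ≤ B → 3 * (B : ℝ) ≤ y →
      y ≤ y' → (∀ N, 0 ≤ f N ∧ f N ≤ 1) → Inv B f →
      |II y f - II y' f| ≤ C * Real.log (y / B) ^ (-(1 / 1600) : ℝ))
    (A : Finset ℕ) {δ : ℕ → ℝ} (hδ : DS δ) {Q : ℝ} (hQ : 0 < Q) {B : ℕ} (hB : 1 ≤ B)
    (hA : ∀ a ∈ A, 1 ≤ a ∧ a ≤ B) {y : ℝ} (hy : 3 * (B : ℝ) ≤ y) :
    II y (fun N => min (∑ a ∈ A, pS a N) Q) ≤
      rho * ∑ a ∈ A, δ a + Q * (C * Real.log (y / B) ^ (-(1 / 1600) : ℝ)) := by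
  have hB0 : (1 : ℝ) ≤ B := by exact_mod_cast hB
  have hy0 : 0 < y := by linarith
  set F : ℕ → ℝ := fun N => ∑ a ∈ A, pS a N with hF
  have hF0 : ∀ N, 0 ≤ F N := fun N => Finset.sum_nonneg (fun a _ => (pS_mem a N).1)
  set g : ℕ → ℝ := fun N => min (F N) Q / Q with hg
  have hg01 : ∀ N, 0 ≤ g N ∧ g N ≤ 1 := by
    intro N
    constructor
    · exact div_nonneg (le_min (hF0 N) hQ.le) hQ.le
    · rw [hg]
      show min (F N) Q / Q ≤ 1
      rw [div_le_one hQ]
      exact min_le_right _ _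
  have hInv : Inv B g := by
    intro N hN
    have : F (S N) = F N := by
      refine Finset.sum_congr rfl (fun a ha => ?_)
      exact hPi.1 a N (lt_of_le_of_lt (hA a ha).2 hN)
    show min (F (S N)) Q / Q = min (F N) Q / Q
    rw [this]
  have hQg : ∀ y', II y' (fun N => min (F N) Q) = Q * II y' g := by
    intro y'
    rw [← II_smul]
    congr 1
    funext N
    show min (F N) Q = Q * (min (F N) Q / Q)
    field_simp
  have hlim : Filter.Tendsto (fun y' : ℝ => (∑ a ∈ A, II y' (pS a)) +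
      Q * (C * Real.log (y / B) ^ (-(1 / 1600) : ℝ))) Filter.atTop
      (nhds ((∑ a ∈ A, rho * δ a) + Q * (C * Real.log (y / B) ^ (-(1 / 1600) : ℝ)))) := by
    refine Filter.Tendsto.add_const _ ?_
    exact tendsto_finsetSum A (fun a ha => lim_pS hPi hDx (hA a ha).1 hδ hr)
  rw [Finset.mul_sum]
  refine ge_of_tendsto hlim ?_
  filter_upwards [Filter.eventually_ge_atTop y] with y' hy'
  have h1 := (abs_le.1 (hC B y y' g hB hy hy' hg01 hInv)).2
  have h2 : II y' (fun N => min (F N) Q) ≤ II y' F :=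
    II_mono hPo (lt_of_lt_of_le hy0 hy') (fun N => min_le_left _ _)
  have h3 : II y' F = ∑ a ∈ A, II y' (pS a) := II_sum y' A (fun a N => pS a N)
  have h4 : Q * II y g ≤ Q * (II y' g + C * Real.log (y / B) ^ (-(1 / 1600) : ℝ)) :=
    mul_le_mul_of_nonneg_left (by linarith) hQ.le
  rw [← h3]
  rw [hQg y'] at h2
  rw [hQg y]
  linarith

open Classical in
theorem count (A : Finset ℕ) (N T : ℕ)
    (hinj : ∀ t ≤ T, ∀ t' ≤ T, S^[t] N = S^[t'] N → S^[t] N ∈ A → t = t') :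
    ∑ t ∈ range (T + 1), (if S^[t] N ∈ A then (1 : ℝ) else 0) ≤ ∑ a ∈ A, pS a N := by
  have h1 : ∑ t ∈ range (T + 1), (if S^[t] N ∈ A then (1 : ℝ) else 0) =
      (((range (T + 1)).filter (fun t => S^[t] N ∈ A)).card : ℝ) := by
    rw [Finset.sum_ite, Finset.sum_const_zero, add_zero, Finset.sum_const, nsmul_eq_mul, mul_one]
  have h2 : ∑ a ∈ A, pS a N = ((A.filter (fun a => ∃ k, S^[k] N = a)).card : ℝ) := by
    unfold pS
    rw [Finset.sum_ite, Finset.sum_const_zero, add_zero, Finset.sum_const, nsmul_eq_mul, mul_one]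
  rw [h1, h2]
  norm_cast
  refine Finset.card_le_card_of_injOn (fun t => S^[t] N) ?_ ?_
  · intro t ht
    have ht' := Finset.mem_filter.1 (Finset.mem_coe.1 ht)
    exact Finset.mem_coe.2 (Finset.mem_filter.2 ⟨ht'.2, t, rfl⟩)
  · intro t ht t' ht' heq
    have h := Finset.mem_filter.1 (Finset.mem_coe.1 ht)
    have h' := Finset.mem_filter.1 (Finset.mem_coe.1 ht')
    exact hinj t (Nat.lt_succ_iff.1 (Finset.mem_range.1 h.1)) t'
      (Nat.lt_succ_iff.1 (Finset.mem_range.1 h'.1)) heq h.2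

open Classical in
theorem hHit (hPo : StPo) (hVm : StVm) (hVd : StVd) (hLN : StLN) (hPi : StPi) (hCst : StCst)
    (hDx : StDx) : StHit := by
  obtain ⟨x1, C1, hx13, hC1, hVm⟩ := hVm
  obtain ⟨x2, hx23, hVd⟩ := hVd
  obtain ⟨x3, C3, hx33, hC3, hLN⟩ := hLN
  obtain ⟨C4, hC4, hCst⟩ := hCst
  refine ⟨max (max x1 x2) (max x3 (Real.exp 200)), 2 * C1 + C3 + 100 * C4, ?_, by positivity, ?_⟩
  · exact le_trans hx13 (le_trans (le_max_left _ _) (le_max_left _ _))
  intro x w A δ hx hw hA hδ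
  have hxx1 : x1 ≤ x := le_trans (le_trans (le_max_left _ _) (le_max_left _ _)) hx
  have hxx2 : x2 ≤ x := le_trans (le_trans (le_max_right _ _) (le_max_left _ _)) hx
  have hxx3 : x3 ≤ x := le_trans (le_trans (le_max_left _ _) (le_max_right _ _)) hx
  have hxe : Real.exp 200 ≤ x := le_trans (le_trans (le_max_right _ _) (le_max_right _ _)) hx
  have hx0 : 0 < x := lt_of_lt_of_le (Real.exp_pos _) hxe
  have hx3 : 3 ≤ x := le_trans hx13 hxx1
  have hLb : 200 ≤ Real.log x := (Real.le_log_iff_exp_le hx0).2 hxe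
  have hrho : 0 < rho := by
    unfold rho
    exact div_pos (Real.log_pos (by norm_num)) (by norm_num)
  set L := Real.log x with hL
  have hL0 : 0 < L := by linarith
  have hl2 : Real.log 2 ≤ 1 := by
    have := Real.log_two_lt_d9
    linarith
  -- the base point
  have hp : 0 < x ^ (103 / 100 : ℝ) := Real.rpow_pos_of_pos hx0 _
  have hw0 : 0 < w := lt_of_lt_of_le hp hw
  have hw1 : 1 ≤ w := le_trans (Real.one_le_rpow (by linarith) (by norm_num)) hw
  set z := w / x ^ (103 / 100 : ℝ) with hz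
  have hz1 : 1 ≤ z := by rw [hz, le_div_iff₀ hp]; linarith
  have hzl : z * zl x = w := by
    unfold zl
    rw [hz]
    field_simp
  have hr2 : (2 : ℝ) ≤ x ^ (1 / 100 : ℝ) := by
    rw [← Real.log_le_log_iff (by norm_num) (Real.rpow_pos_of_pos hx0 _), Real.log_rpow hx0]
    linarith
  have hzr : 2 * w ≤ z * zr x := by
    have h1 : zr x = zl x * x ^ (1 / 100 : ℝ) := by
      unfold zr zl
      rw [← Real.rpow_add hx0]
      norm_num
    rw [h1, ← mul_assoc, hzl]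
    nlinarith
  -- first moment
  set f : ℕ → ℝ := fun M => if M ∈ A then 1 else 0 with hf
  have hf01 : ∀ M, 0 ≤ f M ∧ f M ≤ 1 := by
    intro M
    rw [hf]
    show 0 ≤ (if M ∈ A then (1 : ℝ) else 0) ∧ (if M ∈ A then (1 : ℝ) else 0) ≤ 1
    split_ifs <;> norm_num
  have hfs : ∀ M : ℕ, f M ≠ 0 → w ≤ M ∧ (M : ℝ) ≤ 2 * w := by
    intro M hM
    have : M ∈ A := by
      by_contra hc
      exact hM (if_neg hc)
    exact hA M this
  obtain ⟨y, hyz, hy⟩ := hLN z x w f hxx3 hz1 hzl.le hzr hf01 hfs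
  have hleft : ∑ M ∈ Icc 1 ⌊2 * w⌋₊, f M * (3 ^ mm x * pim (mm x) M / M) =
      ∑ a ∈ A, 3 ^ mm x * pim (mm x) a / a := by
    have h1 : A ⊆ Icc 1 ⌊2 * w⌋₊ := by
      intro a ha
      have h := hA a ha
      refine Finset.mem_Icc.2 ⟨?_, Nat.le_floor h.2⟩
      have : (1 : ℝ) ≤ a := le_trans hw1 h.1
      exact_mod_cast this
    rw [← Finset.sum_subset h1]
    · refine Finset.sum_congr rfl (fun a ha => ?_)
      show (if a ∈ A then (1 : ℝ) else 0) * _ = _
      rw [if_pos ha, one_mul]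
    · intro M _ hM
      show (if M ∈ A then (1 : ℝ) else 0) * _ = _
      rw [if_neg hM, zero_mul]
  rw [hleft] at hy
  -- scale
  have hyr := hyz.2
  have hz0 : 0 < z := by linarith
  have hylow : w * x ^ (2 / 100 : ℝ) ≤ y := by
    have h1 : x ^ (105 / 100 : ℝ) * z ≤ y := (le_div_iff₀ hz0).1 hyr.1
    have h2 : x ^ (105 / 100 : ℝ) = zl x * x ^ (2 / 100 : ℝ) := by
      unfold zl
      rw [← Real.rpow_add hx0]
      norm_num
    rw [h2] at h1
    calc w * x ^ (2 / 100 : ℝ) = zl x * x ^ (2 / 100 : ℝ) * z := by rw [← hzl]; ring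
      _ ≤ y := h1
  have hr6 : (6 : ℝ) ≤ x ^ (2 / 100 : ℝ) := by
    have h1 : x ^ (2 / 100 : ℝ) = x ^ (1 / 100 : ℝ) * x ^ (1 / 100 : ℝ) := by
      rw [← Real.rpow_add hx0]
      norm_num
    have h2 : Real.exp 2 ≤ x ^ (1 / 100 : ℝ) := by
      rw [← Real.le_log_iff_exp_le (Real.rpow_pos_of_pos hx0 _), Real.log_rpow hx0]
      linarith
    have h3 : (3 : ℝ) ≤ Real.exp 2 := by
      have := Real.add_one_le_exp (2 : ℝ)
      linarith
    rw [h1]
    nlinarith
  set B := ⌊2 * w⌋₊ with hB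
  have hB1 : 1 ≤ B := by
    rw [hB]
    exact Nat.le_floor (by push_cast; linarith)
  have hBw : (B : ℝ) ≤ 2 * w := Nat.floor_le (by linarith)
  have hBp : (0 : ℝ) < B := by exact_mod_cast hB1
  have hy0 : 0 < y := lt_of_lt_of_le (by positivity) hylow
  have h3B : 3 * (B : ℝ) ≤ y := by nlinarith
  have hlogB : L / 100 ≤ Real.log (y / B) := by
    have h1 : x ^ (2 / 100 : ℝ) / 2 ≤ y / B := by
      rw [div_le_div_iff₀ (by norm_num) hBp]
      nlinarith [Real.rpow_pos_of_pos hx0 (2 / 100 : ℝ)]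
    have h2 : Real.log (x ^ (2 / 100 : ℝ) / 2) ≤ Real.log (y / B) :=
      Real.log_le_log (by positivity) h1
    rw [Real.log_div (by positivity) (by norm_num), Real.log_rpow hx0] at h2
    linarith
  -- the cut off
  set Q := L ^ (1 / 3200 : ℝ) with hQ
  have hQ0 : 0 < Q := Real.rpow_pos_of_pos hL0 _
  have hup := upper hPo hPi hDx hrho hCst A hδ hQ0 hB1 (fun a ha => ⟨by
    have : (1 : ℝ) ≤ a := le_trans hw1 (hA a ha).1
    exact_mod_cast this, Nat.le_floor (hA a ha).2⟩) h3B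
  obtain ⟨hv1, hv2⟩ := hVm z x y w hxx1 hyz hw0
  set T := tz z x y with hT
  set D := L ^ (2 / 3 : ℝ) with hD
  -- pointwise
  have hVvis : ∀ N, ∑ t ∈ range (T + 1), f (S^[t] N) ≤ vis w T N := by
    intro N
    unfold vis
    refine Finset.sum_le_sum (fun t _ => ?_)
    show (if S^[t] N ∈ A then (1 : ℝ) else 0) ≤ _
    by_cases h : S^[t] N ∈ A
    · rw [if_pos h, if_pos (hA _ h)]
    · rw [if_neg h]
      split_ifs <;> norm_num
  have hV0 : ∀ N, 0 ≤ ∑ t ∈ range (T + 1), f (S^[t] N) :=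
    fun N => Finset.sum_nonneg (fun t _ => (hf01 _).1)
  have hVT : ∀ N, ∑ t ∈ range (T + 1), f (S^[t] N) ≤ (T : ℝ) + 1 := by
    intro N
    calc ∑ t ∈ range (T + 1), f (S^[t] N) ≤ ∑ t ∈ range (T + 1), (1 : ℝ) :=
          Finset.sum_le_sum (fun t _ => (hf01 _).2)
      _ = (T : ℝ) + 1 := by simp
  have hpt : ∀ N ∈ Icc 1 ⌊2 * y⌋₊, mu y N * ∑ t ∈ range (T + 1), f (S^[t] N) ≤
      mu y N * min (∑ a ∈ A, pS a N) Q + mu y N * vis w T N ^ 2 / Q +
        (if ¬ Gd D (wd T N) then mu y N * (T + 1) else 0) := by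
    intro N _
    have hm0 := mu_nn hPo hy0 N
    by_cases hr : y / 2 ≤ N ∧ (N : ℝ) ≤ 3 / 2 * y
    · by_cases hG : Gd D (wd T N)
      · rw [if_neg (not_not.2 hG), add_zero]
        have hcnt := count A N T (fun t ht t' ht' heq hmem =>
          hVd z x y N hxx2 hyz hr.1 hr.2 hG t ht t' ht' heq (by
            have h1 := (hA _ hmem).1
            have h2 : z * x ^ (102 / 100 : ℝ) ≤ w := by
              rw [← hzl]
              refine mul_le_mul_of_nonneg_left ?_ hz0.le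
              unfold zl
              exact Real.rpow_le_rpow_of_exponent_le (by linarith) (by norm_num)
            linarith))
        have hV := hV0 N
        have hVv := hVvis N
        have key : ∑ t ∈ range (T + 1), f (S^[t] N) ≤
            min (∑ a ∈ A, pS a N) Q + vis w T N ^ 2 / Q := by
          by_cases hc : ∑ t ∈ range (T + 1), f (S^[t] N) ≤ Q
          · have h1 : ∑ t ∈ range (T + 1), f (S^[t] N) ≤ min (∑ a ∈ A, pS a N) Q :=
              le_min hcnt hc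
            have h2 : 0 ≤ vis w T N ^ 2 / Q := by positivity
            linarith
          · have hc' := not_le.1 hc
            have h1 : 0 ≤ min (∑ a ∈ A, pS a N) Q := le_min (le_trans hV hcnt) hQ0.le
            have h2 : ∑ t ∈ range (T + 1), f (S^[t] N) ≤ vis w T N ^ 2 / Q := by
              rw [le_div_iff₀ hQ0]
              nlinarith
            linarith
        calc mu y N * ∑ t ∈ range (T + 1), f (S^[t] N) ≤
              mu y N * (min (∑ a ∈ A, pS a N) Q + vis w T N ^ 2 / Q) :=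
              mul_le_mul_of_nonneg_left key hm0
          _ = _ := by ring
      · rw [if_pos hG]
        have h1 : 0 ≤ min (∑ a ∈ A, pS a N) Q :=
          le_min (Finset.sum_nonneg (fun a _ => (pS_mem a N).1)) hQ0.le
        have h2 : 0 ≤ mu y N * min (∑ a ∈ A, pS a N) Q := mul_nonneg hm0 h1
        have h3 : 0 ≤ mu y N * vis w T N ^ 2 / Q := by positivity
        have h4 := mul_le_mul_of_nonneg_left (hVT N) hm0
        linarith
    · rw [mu_zero hPo hy0 hr]
      simp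
  have hsum := Finset.sum_le_sum hpt
  rw [Finset.sum_add_distrib, Finset.sum_add_distrib, ← Finset.sum_div] at hsum
  have hbad : ∑ N ∈ Icc 1 ⌊2 * y⌋₊, (if ¬ Gd D (wd T N) then mu y N * (T + 1) else 0) =
      ∑ N ∈ (Icc 1 ⌊2 * y⌋₊).filter (fun N => ¬ Gd D (wd T N)), mu y N * (T + 1) := by
    rw [Finset.sum_filter]
  rw [hbad] at hsum
  have hII : ∑ N ∈ Icc 1 ⌊2 * y⌋₊, mu y N * min (∑ a ∈ A, pS a N) Q =
      II y (fun N => min (∑ a ∈ A, pS a N) Q) := rfl
  rw [hII] at hsum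
  -- exponents
  set v := L ^ (-(1 / 3200) : ℝ) with hv
  have hv0 : 0 < v := Real.rpow_pos_of_pos hL0 _
  have hQv : 1 / Q = v := by
    rw [hQ, hv, Real.rpow_neg hL0.le, one_div]
  have hLv : ∀ e : ℝ, e ≤ -(1 / 3200) → L ^ e ≤ v := fun e he =>
    Real.rpow_le_rpow_of_exponent_le (by linarith) he
  have e1 : (∑ N ∈ Icc 1 ⌊2 * y⌋₊, mu y N * vis w T N ^ 2) / Q ≤ C1 * v := by
    rw [← hQv, mul_one_div]
    exact div_le_div_of_nonneg_right hv1 hQ0.le
  have e2 : C1 / L ≤ C1 * v := by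
    rw [div_eq_mul_inv, ← Real.rpow_neg_one]
    exact mul_le_mul_of_nonneg_left (hLv _ (by norm_num)) hC1.le
  have e3 : C3 * L ^ (-(1 / 1600) : ℝ) ≤ C3 * v :=
    mul_le_mul_of_nonneg_left (hLv _ (by norm_num)) hC3.le
  have e4 : Q * (C4 * Real.log (y / B) ^ (-(1 / 1600) : ℝ)) ≤ 100 * C4 * v := by
    have h1 : Real.log (y / B) ^ (-(1 / 1600) : ℝ) ≤ (L / 100) ^ (-(1 / 1600) : ℝ) :=
      Real.rpow_le_rpow_of_nonpos (by positivity) hlogB (by norm_num)
    have h2 : (L / 100) ^ (-(1 / 1600) : ℝ) = L ^ (-(1 / 1600) : ℝ) * 100 ^ (1 / 1600 : ℝ) := by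
      rw [Real.div_rpow hL0.le (by norm_num), div_eq_mul_inv, ← Real.rpow_neg (by norm_num), neg_neg]
    have h3 : (100 : ℝ) ^ (1 / 1600 : ℝ) ≤ 100 := by
      calc (100 : ℝ) ^ (1 / 1600 : ℝ) ≤ (100 : ℝ) ^ (1 : ℝ) :=
            Real.rpow_le_rpow_of_exponent_le (by norm_num) (by norm_num)
        _ = 100 := Real.rpow_one _
    have h4 : Q * L ^ (-(1 / 1600) : ℝ) = v := by
      rw [hQ, hv, ← Real.rpow_add hL0]
      norm_num
    have hLp : 0 < L ^ (-(1 / 1600) : ℝ) := Real.rpow_pos_of_pos hL0 _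
    calc Q * (C4 * Real.log (y / B) ^ (-(1 / 1600) : ℝ)) ≤
          Q * (C4 * (L ^ (-(1 / 1600) : ℝ) * 100)) := by
          refine mul_le_mul_of_nonneg_left (mul_le_mul_of_nonneg_left ?_ hC4.le) hQ0.le
          refine le_trans h1 ?_
          rw [h2]
          exact mul_le_mul_of_nonneg_left h3 hLp.le
      _ = 100 * C4 * (Q * L ^ (-(1 / 1600) : ℝ)) := by ring
      _ = 100 * C4 * v := by rw [h4]
  have hfin : (2 * C1 + C3 + 100 * C4) * v = C1 * v + C1 * v + C3 * v + 100 * C4 * v := by ring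
  rw [hfin]
  linarith

end Pool.Agent.Helper76.PRD
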