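import Pool.Agent.Helper76.DE.StT

/-!
# Project PRD, modules Lim, Dx, Dt: limit, means
-/

set_option autoImplicit false

noncomputable section

namespace Pool.Agent.Helper76.PRD

open Pool.Agent.Helper76.ND Pool.Agent.Helper76.DE Finset

/-- a large number with a small bound -/
theorem choose_K {C η : ℝ} (hC : 0 < C) (hη : 0 < η) :
    ∃ K : ℝ, 3 ≤ K ∧ ∀ u : ℝ, K ≤ u → C * Real.log u ^ (-(1 / 1600) : ℝ) ≤ η := by
  have h1 : Filter.Tendsto (fun x : ℝ => Real.log x ^ (-(1 / 1600) : ℝ)) Filter.atTop (nhds 0) :=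
    (tendsto_rpow_neg_atTop (by norm_num : (0 : ℝ) < 1 / 1600)).comp Real.tendsto_log_atTop
  have h2 : ∀ᶠ x : ℝ in Filter.atTop, Real.log x ^ (-(1 / 1600) : ℝ) < η / C :=
    h1.eventually_lt_const (by positivity)
  obtain ⟨K, hK⟩ := Filter.eventually_atTop.1 h2
  refine ⟨max K 3, le_max_right _ _, fun u hu => ?_⟩
  have := mul_le_mul_of_nonneg_left (hK u (le_trans (le_max_left _ _) hu)).le hC.le
  rwa [mul_div_cancel₀ _ hC.ne'] at this

theorem hLim (hCst : StCst) : StLim := by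
  obtain ⟨C, hC, hCst⟩ := hCst
  refine ⟨C, hC, ?_⟩
  intro B f hB hf hI
  have hB0 : (0 : ℝ) < B := by exact_mod_cast hB
  have hcau : CauchySeq (fun y : ℝ => II y f) := by
    rw [Metric.cauchySeq_iff']
    intro ε hε
    obtain ⟨K, hK3, hK⟩ := choose_K hC (half_pos hε)
    refine ⟨K * B, fun y hy => ?_⟩
    have h1 := hCst B (K * B) y f hB (by nlinarith) hy hf hI
    have h2 := hK (K * B / B) (by rw [mul_div_cancel_right₀ _ hB0.ne'])
    rw [Real.dist_eq, abs_sub_comm]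
    linarith
  obtain ⟨l, hl⟩ := cauchySeq_tendsto_of_complete hcau
  refine ⟨l, hl, fun y hy => ?_⟩
  have h1 : Filter.Tendsto (fun y' : ℝ => |II y f - II y' f|) Filter.atTop (nhds |II y f - l|) :=
    (tendsto_const_nhds.sub hl).abs
  refine le_of_tendsto h1 ?_
  filter_upwards [Filter.eventually_ge_atTop y] with y' hy'
  exact hCst B y y' f hB hy hy' hf hI

theorem dx_aux (hLim : StLim) (hTau : StTau) {ε : ℝ} (hε : 0 < ε) :
    ∃ K : ℝ, 0 < K ∧ ∀ (B : ℕ) (f : ℕ → ℝ) (l : ℝ), 1 ≤ B → (∀ N, 0 ≤ f N ∧ f N ≤ 1) →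
      Inv B f → Filter.Tendsto (fun y : ℝ => II y f) Filter.atTop (nhds l) →
      ∀ M : ℕ, K * B ≤ M → |(∑ n ∈ Icc 1 M, f n) / M - l / rho| ≤ ε := by
  obtain ⟨C, hC, hLim⟩ := hLim
  obtain ⟨K, η, hK, hη, hTau⟩ := hTau ε hε
  obtain ⟨K', hK'3, hK'⟩ := choose_K hC hη
  refine ⟨K * K', by positivity, ?_⟩
  intro B f l hB hf hI hl M hM
  obtain ⟨l', hl', hb⟩ := hLim B f hB hf hI
  have hll : l' = l := tendsto_nhds_unique hl' hl
  subst hll
  have hB1 : (1 : ℝ) ≤ B := by exact_mod_cast hB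
  have hB0 : (0 : ℝ) < B := by linarith
  have hK0 : 0 < K := by linarith
  have hKM : K * (K' * B) ≤ M := by linarith
  refine hTau M f l' ?_ hf ?_
  · have : 1 ≤ K' * B := by nlinarith
    nlinarith
  · intro y hy1 _
    have h1 : K' * B ≤ y := by
      refine le_trans ?_ hy1
      rw [le_div_iff₀ hK0]
      linarith
    have h2 := hb y (by nlinarith)
    exact le_trans h2 (hK' (y / B) (by rw [le_div_iff₀ hB0]; exact h1))

theorem hDx (hLim : StLim) (hTau : StTau) : StDx := by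
  intro ε hε
  obtain ⟨K, hK, h⟩ := dx_aux hLim hTau hε
  refine ⟨K, hK, ?_⟩
  intro B f hB hf hI
  obtain ⟨C, _, hL⟩ := id hLim
  obtain ⟨l, hl, _⟩ := hL B f hB hf hI
  refine ⟨l, hl, ?_, h B f l hB hf hI hl⟩
  unfold Mean
  rw [Metric.tendsto_atTop]
  intro e he
  obtain ⟨K1, hK1, h1⟩ := dx_aux hLim hTau (half_pos he)
  refine ⟨⌈K1 * B⌉₊, fun n hn => ?_⟩
  have h2 := h1 B f l hB hf hI hl n (le_trans (Nat.le_ceil _) (by exact_mod_cast hn))
  rw [Real.dist_eq]
  linarith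

theorem hDt (hDx : StDx) : StDt := by
  intro ε hε
  obtain ⟨K, hK, h⟩ := hDx ε hε
  refine ⟨K, hK, ?_⟩
  intro B f hB hf hT
  have hI : Inv B f := by
    intro N hN
    by_cases hev : N % 2 = 0
    · have h1 : S N = T N := by
        unfold S T
        rw [if_pos hev, if_pos hev]
      rw [h1]
      exact hT N hN
    · have h1 : T N = 3 * N - 1 := by
        unfold T
        rw [if_neg hev]
      have h2 : S N = T (T N) := by
        rw [h1]
        unfold S T
        rw [if_neg hev, if_pos (by omega)]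
      rw [h2, hT (T N) (by rw [h1]; omega), hT N hN]
  obtain ⟨l, _, h1, h2⟩ := h B f hB hf hI
  exact ⟨l / rho, h1, h2⟩

end Pool.Agent.Helper76.PRD
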