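import Pool.Agent.Helper76.PRD.M_Fb

/-!
# Project PRD, module Mv: mean value
-/

set_option autoImplicit false

noncomputable section

namespace Pool.Agent.Helper76.PRD

open Pool.Agent.Helper76.ND Pool.Agent.Helper76.DE Finset

theorem DS_nonneg {δ : ℕ → ℝ} (hδ : DS δ) {a : ℕ} (ha : 1 ≤ a) : 0 ≤ δ a := by
  refine ge_of_tendsto' (hδ a ha) (fun x => ?_)
  refine div_nonneg (Finset.sum_nonneg (fun n _ => ?_)) (Nat.cast_nonneg _)
  unfold pS
  split_ifs <;> norm_num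

/-- complete periods -/
theorem periods (hNs : StNs) (hPe : StPe) (hPz : StPz) {m a b : ℕ} (hm : 1 ≤ m)
    (hab : (2 : ℝ) * 3 ^ m ≤ (b : ℝ) - a) :
    (((b : ℝ) - a) - 2 * 3 ^ m) * (1 - 1 / 8 ^ m) ≤ ∑ M ∈ Ico a b, 3 ^ m * pim m M := by
  set P : ℕ := 3 ^ m with hP
  have hP0 : 0 < P := by positivity
  have hPr : (P : ℝ) = 3 ^ m := by rw [hP]; push_cast; ring
  have hPr0 : (0 : ℝ) < P := by exact_mod_cast hP0
  set k0 := a / P + 1 with hk0
  set k1 := b / P with hk1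
  have ha1 : a ≤ P * k0 := by
    rw [hk0, mul_add, mul_one]
    have := Nat.div_add_mod a P
    have := Nat.mod_lt a hP0
    omega
  have ha2 : P * k0 ≤ a + P := by
    rw [hk0, mul_add, mul_one]
    have := Nat.mul_div_le a P
    omega
  have hb1 : P * k1 ≤ b := Nat.mul_div_le b P
  have hb2 : b < P * k1 + P := by
    rw [hk1]
    have := Nat.div_add_mod b P
    have := Nat.mod_lt b hP0
    omega
  have ha2' : (P : ℝ) * k0 ≤ a + P := by exact_mod_cast ha2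
  have hb2' : (b : ℝ) < P * k1 + P := by exact_mod_cast hb2
  rw [← hPr] at hab
  have hk : k0 ≤ k1 := by
    by_contra hc
    have hc' : k1 + 1 ≤ k0 := by omega
    have hc2 : (k1 : ℝ) + 1 ≤ k0 := by exact_mod_cast hc'
    nlinarith
  have hsub : Ico (P * k0) (P * k1) ⊆ Ico a b := Finset.Ico_subset_Ico ha1 hb1
  have h1 : ∑ M ∈ Ico (P * k0) (P * k1), pim m M = ((k1 : ℝ) - k0) * ∑ M ∈ range P, pim m M := by
    rw [Finset.sum_Ico_eq_sub _ (Nat.mul_le_mul_left P hk), hPe.1 (pim m) P k1 (hNs.2.2.1 m),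
      hPe.1 (pim m) P k0 (hNs.2.2.1 m)]
    ring
  have h2 : 1 - 1 / 8 ^ m ≤ ∑ M ∈ range P, pim m M := by
    refine le_trans (hPz.2 m hm) ?_
    exact Finset.sum_le_sum_of_subset_of_nonneg (Finset.filter_subset _ _)
      (fun M _ _ => pim_nonneg m M)
  have h8 : (0 : ℝ) ≤ 1 - 1 / 8 ^ m := by
    have : (1 : ℝ) ≤ 8 ^ m := one_le_pow₀ (by norm_num)
    have h9 : (1 : ℝ) / 8 ^ m ≤ 1 := by rw [div_le_one (by positivity)]; exact this
    linarith
  rw [← Finset.mul_sum, ← hPr]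
  have hkr : (k0 : ℝ) ≤ k1 := by exact_mod_cast hk
  calc ((b : ℝ) - a - 2 * P) * (1 - 1 / 8 ^ m) ≤ (P * ((k1 : ℝ) - k0)) * (1 - 1 / 8 ^ m) :=
        mul_le_mul_of_nonneg_right (by nlinarith) h8
    _ ≤ (P * ((k1 : ℝ) - k0)) * ∑ M ∈ range P, pim m M :=
        mul_le_mul_of_nonneg_left h2 (mul_nonneg hPr0.le (by linarith))
    _ = P * ∑ M ∈ Ico (P * k0) (P * k1), pim m M := by rw [h1]; ring
    _ ≤ P * ∑ M ∈ Ico a b, pim m M :=
        mul_le_mul_of_nonneg_left (Finset.sum_le_sum_of_subset_of_nonneg hsub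
          (fun M _ _ => pim_nonneg m M)) hPr0.le

/-- one short block -/
theorem block (hNs : StNs) (hPe : StPe) (hPz : StPz) (hHit : StHit) {δ : ℕ → ℝ} (hδ : DS δ)
    {e : ℝ} (he : 0 < e) (he1 : e ≤ 1) : ∃ w0 : ℝ, 1 ≤ w0 ∧ ∀ w : ℝ, w0 ≤ w →
    e / 8 * w * (1 - e / 2) ≤
      rho * ∑ a ∈ Ico (⌊w⌋₊ + 1) (⌊(1 + e / 8) * w⌋₊ + 1), a * δ a := by
  obtain ⟨x0, C, hx03, hC, hHit⟩ := hHit
  -- precision
  have h1 : Filter.Tendsto (fun n : ℕ => (1 / 8 : ℝ) ^ n) Filter.atTop (nhds 0) :=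
    tendsto_pow_atTop_nhds_zero_of_lt_one (by norm_num) (by norm_num)
  have h2 : ∀ᶠ n : ℕ in Filter.atTop, (1 / 8 : ℝ) ^ n < e / 8 :=
    h1.eventually_lt_const (by positivity)
  obtain ⟨m1, hm1⟩ := Filter.eventually_atTop.1 h2
  obtain ⟨x, hx0, hx1, hmx, hCx⟩ := choose_x x0 C (e * (e / 8) / 8) (max m1 1) hC (by positivity)
  set m := mm x with hm
  have hmm1 : m1 ≤ m := le_trans (le_max_left _ _) hmx
  have hmm2 : 1 ≤ m := le_trans (le_max_right _ _) hmx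
  have h8m : (1 : ℝ) / 8 ^ m ≤ e / 8 := by
    have := (hm1 m hmm1).le
    rwa [one_div_pow] at this
  have h3m : (0 : ℝ) < 3 ^ m := by positivity
  set τ := e / 8 with hτ
  have hτ0 : 0 < τ := by positivity
  have hτ1 : τ ≤ 1 / 8 := by rw [hτ]; linarith
  refine ⟨max (max (x ^ (103 / 100 : ℝ)) ((2 * 3 ^ m + 1) / (e / 8 * τ))) 1, le_max_right _ _, ?_⟩
  intro w hw
  have hw1 : x ^ (103 / 100 : ℝ) ≤ w := le_trans (le_trans (le_max_left _ _) (le_max_left _ _)) hw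
  have hw2 : (2 * 3 ^ m + 1) / (e / 8 * τ) ≤ w :=
    le_trans (le_trans (le_max_right _ _) (le_max_left _ _)) hw
  have hw3 : 1 ≤ w := le_trans (le_max_right _ _) hw
  have hw0 : 0 < w := by linarith
  rw [div_le_iff₀ (by positivity)] at hw2
  set A := Ico (⌊w⌋₊ + 1) (⌊(1 + τ) * w⌋₊ + 1) with hA
  have hAmem : ∀ a ∈ A, w ≤ (a : ℝ) ∧ (a : ℝ) ≤ (1 + τ) * w ∧ 1 ≤ a := by
    intro a ha
    have h := Finset.mem_Ico.1 ha
    refine ⟨?_, ?_, by omega⟩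
    · have h3 : w < (⌊w⌋₊ : ℝ) + 1 := Nat.lt_floor_add_one w
      have h4 : ((⌊w⌋₊ + 1 : ℕ) : ℝ) ≤ a := by exact_mod_cast h.1
      push_cast at h4
      linarith
    · exact (Nat.le_floor_iff (by positivity)).1 (by omega)
  have hA2 : ∀ a ∈ A, w ≤ (a : ℝ) ∧ (a : ℝ) ≤ 2 * w := by
    intro a ha
    obtain ⟨h3, h4, _⟩ := hAmem a ha
    refine ⟨h3, ?_⟩
    nlinarith
  have hmain := hHit x w A δ hx0 hw1 hA2 hδ
  -- right side
  have hr : w * ∑ a ∈ A, δ a ≤ ∑ a ∈ A, a * δ a := by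
    rw [Finset.mul_sum]
    refine Finset.sum_le_sum (fun a ha => ?_)
    obtain ⟨h3, _, h5⟩ := hAmem a ha
    exact mul_le_mul_of_nonneg_right h3 (DS_nonneg hδ h5)
  -- left side
  have hl : (∑ a ∈ A, 3 ^ m * pim m a) ≤ (1 + τ) * w * ∑ a ∈ A, 3 ^ m * pim m a / a := by
    rw [Finset.mul_sum]
    refine Finset.sum_le_sum (fun a ha => ?_)
    obtain ⟨h3, h4, h5⟩ := hAmem a ha
    have ha0 : (0 : ℝ) < a := by exact_mod_cast h5
    have h6 : 0 ≤ 3 ^ m * pim m a := mul_nonneg h3m.le (pim_nonneg m a)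
    rw [mul_div_assoc', le_div_iff₀ ha0, mul_comm]
    exact mul_le_mul_of_nonneg_right h4 h6
  have hfl1 : (⌊w⌋₊ : ℝ) ≤ w := Nat.floor_le hw0.le
  have hfl2 : (1 + τ) * w < (⌊(1 + τ) * w⌋₊ : ℝ) + 1 := Nat.lt_floor_add_one _
  have he8 : e / 8 = τ := hτ.symm
  have hlen : τ * w - 1 ≤ ((⌊(1 + τ) * w⌋₊ + 1 : ℕ) : ℝ) - ((⌊w⌋₊ + 1 : ℕ) : ℝ) := by
    push_cast
    linarith
  have hττ : τ * τ * w ≤ τ * w := by nlinarith
  have hge : (2 : ℝ) * 3 ^ m ≤ ((⌊(1 + τ) * w⌋₊ + 1 : ℕ) : ℝ) - ((⌊w⌋₊ + 1 : ℕ) : ℝ) := by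
    have : 2 * 3 ^ m + 1 ≤ τ * w := by
      calc (2 : ℝ) * 3 ^ m + 1 ≤ w * (e / 8 * τ) := hw2
        _ = τ * τ * w := by rw [he8]; ring
        _ ≤ τ * w := hττ
    linarith
  have hper := periods hNs hPe hPz hmm2 hge
  have h8 : (0 : ℝ) ≤ 1 - 1 / 8 ^ m := by linarith
  have hS : (τ * w - τ * τ * w) * (1 - τ) ≤ ∑ a ∈ A, 3 ^ m * pim m a := by
    refine le_trans ?_ hper
    have h9 : τ * w - τ * τ * w ≤
        ((⌊(1 + τ) * w⌋₊ + 1 : ℕ) : ℝ) - ((⌊w⌋₊ + 1 : ℕ) : ℝ) - 2 * 3 ^ m := by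
      have : (2 : ℝ) * 3 ^ m + 1 ≤ τ * τ * w := by
        calc (2 : ℝ) * 3 ^ m + 1 ≤ w * (e / 8 * τ) := hw2
          _ = τ * τ * w := by rw [he8]; ring
      linarith
    calc (τ * w - τ * τ * w) * (1 - τ) ≤ (τ * w - τ * τ * w) * (1 - 1 / 8 ^ m) :=
          mul_le_mul_of_nonneg_left (by linarith) (by linarith)
      _ ≤ _ := mul_le_mul_of_nonneg_right h9 h8
  -- assembly
  set Y := ∑ a ∈ A, 3 ^ m * pim m a / a with hY
  set Z := ∑ a ∈ A, δ a with hZ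
  have h10 : Y ≤ rho * Z + e * τ / 8 := by
    have : C * Real.log x ^ (-(1 / 3200) : ℝ) ≤ e * τ / 8 := hCx
    linarith
  have h11 : (τ * w - τ * τ * w) * (1 - τ) ≤ (1 + τ) * w * (rho * Z + e * τ / 8) := by
    refine le_trans hS (le_trans hl ?_)
    exact mul_le_mul_of_nonneg_left h10 (by positivity)
  have h12 : τ * (1 - τ) * (1 - τ) ≤ (1 + τ) * (rho * Z + e * τ / 8) := by
    have h13 : w * (τ * (1 - τ) * (1 - τ)) ≤ w * ((1 + τ) * (rho * Z + e * τ / 8)) := by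
      calc w * (τ * (1 - τ) * (1 - τ)) = (τ * w - τ * τ * w) * (1 - τ) := by ring
        _ ≤ (1 + τ) * w * (rho * Z + e * τ / 8) := h11
        _ = _ := by ring
    exact le_of_mul_le_mul_left h13 hw0
  have h14 : τ * (1 - τ) * (1 - τ) * (1 - τ) ≤ rho * Z + e * τ / 8 := by
    have h15 : (1 - τ) * (τ * (1 - τ) * (1 - τ)) ≤
        (1 - τ) * ((1 + τ) * (rho * Z + e * τ / 8)) :=
      mul_le_mul_of_nonneg_left h12 (by linarith)
    have h16 : 0 ≤ rho * Z + e * τ / 8 := by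
      have h17 : 0 ≤ τ * (1 - τ) * (1 - τ) := by
        have : 0 ≤ 1 - τ := by linarith
        positivity
      have h18 : 0 ≤ (1 + τ) * (rho * Z + e * τ / 8) := le_trans h17 h12
      by_contra hc
      have hc' := not_le.1 hc
      have : (1 + τ) * (rho * Z + e * τ / 8) < 0 := mul_neg_of_pos_of_neg (by linarith) hc'
      linarith
    have h17 : (1 - τ) * ((1 + τ) * (rho * Z + e * τ / 8)) ≤ rho * Z + e * τ / 8 := by
      have h18 : 0 ≤ τ * τ * (rho * Z + e * τ / 8) := by positivity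
      have h19 : (1 - τ) * ((1 + τ) * (rho * Z + e * τ / 8)) =
          (rho * Z + e * τ / 8) - τ * τ * (rho * Z + e * τ / 8) := by ring
      linarith
    linarith
  have h20 : τ * (1 - e / 2) ≤ rho * Z := by
    have h21 : τ * (1 - 3 * τ) ≤ τ * (1 - τ) * (1 - τ) * (1 - τ) := by
      have h22 : τ * (1 - τ) * (1 - τ) * (1 - τ) - τ * (1 - 3 * τ) = τ * τ * τ * (3 - τ) := by ring
      have h23 : 0 ≤ τ * τ * τ * (3 - τ) := by
        have : 0 ≤ 3 - τ := by linarith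
        positivity
      linarith
    have h24 : τ * (1 - e / 2) = τ * (1 - 3 * τ) - e * τ / 8 := by rw [hτ]; ring
    linarith
  calc τ * w * (1 - e / 2) = w * (τ * (1 - e / 2)) := by ring
    _ ≤ w * (rho * Z) := mul_le_mul_of_nonneg_left h20 hw0.le
    _ = rho * (w * Z) := by ring
    _ ≤ rho * ∑ a ∈ A, a * δ a := mul_le_mul_of_nonneg_left hr rho_pos.le

theorem hMv (hNs : StNs) (hPe : StPe) (hPz : StPz) (hHit : StHit) : StMv := by
  intro δ hδ ε hε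
  set e := min 1 (ε * rho) with he
  have he0 : 0 < e := lt_min one_pos (mul_pos hε rho_pos)
  have he1 : e ≤ 1 := min_le_left _ _
  have he2 : e ≤ ε * rho := min_le_right _ _
  obtain ⟨w0, hw01, hw0⟩ := block hNs hPe hPz hHit hδ he0 he1
  set τ := e / 8 with hτ
  have hτ0 : 0 < τ := by positivity
  have h1e : 0 ≤ 1 - e / 2 := by linarith
  -- induction over the blocks
  have key : ∀ n : ℕ, ∀ X : ℝ, w0 ≤ X / (1 + τ) ^ n →
      (1 - e / 2) * (X - X / (1 + τ) ^ n) ≤ rho * ∑ a ∈ Icc 1 ⌊X⌋₊, a * δ a := by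
    intro n
    induction n with
    | zero =>
      intro X _
      rw [pow_zero, div_one, sub_self, mul_zero]
      refine mul_nonneg rho_pos.le (Finset.sum_nonneg (fun a ha => ?_))
      exact mul_nonneg (Nat.cast_nonneg _) (DS_nonneg hδ (Finset.mem_Icc.1 ha).1)
    | succ n ih =>
      intro X hX
      set w := X / (1 + τ) with hw
      have hwX : X = (1 + τ) * w := by rw [hw]; field_simp
      have hXn : X / (1 + τ) ^ (n + 1) = w / (1 + τ) ^ n := by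
        rw [hw, pow_succ, div_div, mul_comm]
      rw [hXn] at hX
      have hpw : (1 : ℝ) ≤ (1 + τ) ^ n := one_le_pow₀ (by linarith)
      have hww0 : w0 ≤ w := by
        have h1 : w0 * (1 + τ) ^ n ≤ w := (le_div_iff₀ (by positivity)).1 hX
        nlinarith
      have h1 := ih w hX
      have h2 := hw0 w hww0
      have hwp : 0 < w := by linarith
      have hfl : ⌊w⌋₊ ≤ ⌊X⌋₊ := Nat.floor_mono (by rw [hwX]; nlinarith)
      have h3 : ∑ a ∈ Icc 1 ⌊X⌋₊, (a : ℝ) * δ a = ∑ a ∈ Icc 1 ⌊w⌋₊, (a : ℝ) * δ a +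
          ∑ a ∈ Ico (⌊w⌋₊ + 1) (⌊(1 + τ) * w⌋₊ + 1), (a : ℝ) * δ a := by
        rw [← hwX]
        have h4 : ∀ k : ℕ, Icc 1 k = Ico 1 (k + 1) := by
          intro k
          ext i
          simp only [Finset.mem_Icc, Finset.mem_Ico]
          omega
        rw [h4, h4, Finset.sum_Ico_consecutive _ (by omega) (by omega)]
      rw [h3, mul_add, hXn]
      have h5 : (1 - e / 2) * (X - w / (1 + τ) ^ n) =
          (1 - e / 2) * (w - w / (1 + τ) ^ n) + τ * w * (1 - e / 2) := by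
        rw [hwX]
        ring
      rw [h5]
      exact add_le_add h1 h2
  refine ⟨⌈4 * w0 / e⌉₊ + ⌈w0⌉₊, fun X hX => ?_⟩
  have hX1 : 4 * w0 / e ≤ (X : ℝ) := by
    have h1 : 4 * w0 / e ≤ (⌈4 * w0 / e⌉₊ : ℝ) := Nat.le_ceil _
    have h2 : ((⌈4 * w0 / e⌉₊ + ⌈w0⌉₊ : ℕ) : ℝ) ≤ X := by exact_mod_cast hX
    push_cast at h2
    have h3 : (0 : ℝ) ≤ ⌈w0⌉₊ := Nat.cast_nonneg _
    linarith
  have hX2 : w0 ≤ (X : ℝ) := by
    have h1 : w0 ≤ (⌈w0⌉₊ : ℝ) := Nat.le_ceil _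
    have h2 : ((⌈4 * w0 / e⌉₊ + ⌈w0⌉₊ : ℕ) : ℝ) ≤ X := by exact_mod_cast hX
    push_cast at h2
    have h3 : (0 : ℝ) ≤ ⌈4 * w0 / e⌉₊ := Nat.cast_nonneg _
    linarith
  obtain ⟨n, hn1, hn2⟩ := exists_nat_pow_near (x := (X : ℝ) / w0) (y := 1 + τ)
    (by rw [one_le_div (by linarith)]; exact hX2) (by linarith)
  have hp : (0 : ℝ) < (1 + τ) ^ n := by positivity
  have hw00 : 0 < w0 := by linarith
  have h1 : w0 ≤ (X : ℝ) / (1 + τ) ^ n := by
    rw [le_div_iff₀ hp]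
    rw [le_div_iff₀ hw00] at hn1
    linarith
  have h2 : (X : ℝ) / (1 + τ) ^ n ≤ 2 * w0 := by
    rw [div_le_iff₀ hp]
    rw [div_lt_iff₀ hw00, pow_succ] at hn2
    have h3 : (1 + τ) ^ n * (1 + τ) * w0 ≤ (1 + τ) ^ n * 2 * w0 := by
      refine mul_le_mul_of_nonneg_right ?_ hw00.le
      exact mul_le_mul_of_nonneg_left (by rw [hτ]; linarith) hp.le
    linarith
  have h3 := key n X h1
  rw [Nat.floor_natCast] at h3
  have h4 : (1 - e) * X ≤ rho * ∑ a ∈ Icc 1 X, a * δ a := by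
    refine le_trans ?_ h3
    rw [div_le_iff₀ he0] at hX1
    have h5 : (1 - e / 2) * ((X : ℝ) - 2 * w0) ≤ (1 - e / 2) * (X - X / (1 + τ) ^ n) :=
      mul_le_mul_of_nonneg_left (by linarith) h1e
    refine le_trans ?_ h5
    nlinarith
  have h5 : (1 / rho - ε) * X * rho ≤ (∑ a ∈ Icc 1 X, a * δ a) * rho := by
    have hr0 := rho_pos
    have h6 : (1 / rho - ε) * X * rho = (1 - ε * rho) * X := by field_simp
    rw [h6]
    have h7 : (0 : ℝ) ≤ X := Nat.cast_nonneg _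
    have h8 : (1 - ε * rho) * X ≤ (1 - e) * X := mul_le_mul_of_nonneg_right (by linarith) h7
    linarith
  exact le_of_mul_le_mul_right h5 rho_pos

end Pool.Agent.Helper76.PRD
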