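import Pool.Agent.Helper76.DE.StN

/-!
# Project PRD, module Ps: positivity of the limit law
-/

set_option autoImplicit false

noncomputable section

namespace Pool.Agent.Helper76.PRD

open Pool.Agent.Helper76.ND Pool.Agent.Helper76.DE Finset

/-- choice of the first precision -/
theorem ps_m0 {C ε : ℝ} (hC : 0 < C) (hε : 0 < ε) :
    ∃ m0 : ℕ, 1 ≤ m0 ∧ C * (m0 : ℝ) ^ (-(1 / 200) : ℝ) ≤ ε := by
  have h1 : Filter.Tendsto (fun n : ℕ => (n : ℝ) ^ (-(1 / 200) : ℝ)) Filter.atTop (nhds 0) :=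
    (tendsto_rpow_neg_atTop (by norm_num : (0 : ℝ) < 1 / 200)).comp tendsto_natCast_atTop_atTop
  have h2 : ∀ᶠ n : ℕ in Filter.atTop, (n : ℝ) ^ (-(1 / 200) : ℝ) < ε / C :=
    h1.eventually_lt_const (by positivity)
  obtain ⟨n, hn, hn'⟩ := (h2.and (Filter.eventually_ge_atTop 1)).exists
  refine ⟨n, hn', ?_⟩
  have := mul_le_mul_of_nonneg_left hn.le hC.le
  rwa [mul_div_cancel₀ _ hC.ne'] at this

/-- choice of the second precision -/
theorem ps_m1 {c ε : ℝ} (hc : 0 < c) (hε : 0 < ε) (n0 : ℕ) :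
    ∃ m1 : ℕ, n0 ≤ m1 ∧ ∀ m ≥ m1, c * (1 / 8 : ℝ) ^ m ≤ ε := by
  have h1 : Filter.Tendsto (fun n : ℕ => (1 / 8 : ℝ) ^ n) Filter.atTop (nhds 0) :=
    tendsto_pow_atTop_nhds_zero_of_lt_one (by norm_num) (by norm_num)
  have h2 : ∀ᶠ n : ℕ in Filter.atTop, (1 / 8 : ℝ) ^ n < ε / c :=
    h1.eventually_lt_const (by positivity)
  obtain ⟨n, hn⟩ := Filter.eventually_atTop.1 h2
  refine ⟨max n n0, le_max_right _ _, fun m hm => ?_⟩
  have := mul_le_mul_of_nonneg_left (hn m (le_trans (le_max_left _ _) hm)).le hc.le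
  rwa [mul_div_cancel₀ _ hc.ne'] at this

/-- tail of the negative binomial law -/
theorem ps_tail (hGen : StGen) {m J : ℕ} (hJ : J ≤ 8 * m + 1) :
    ∑ s ∈ Ico (8 * m + 1 - J) (8 * m + 1), qs m s ≤ (3 / 2 : ℝ) ^ J * (1 / 8 : ℝ) ^ m := by
  have h1 := hGen m (8 * m + 1) (3 / 2) (by norm_num) (by norm_num)
  have h2 : ((3 / 2 : ℝ) / (2 - 3 / 2)) ^ m = 3 ^ m := by norm_num
  rw [h2] at h1
  have h3 : ∑ s ∈ Ico (8 * m + 1 - J) (8 * m + 1), qs m s * (3 / 2 : ℝ) ^ (8 * m + 1 - J) ≤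
      ∑ s ∈ range (8 * m + 1), qs m s * (3 / 2 : ℝ) ^ s := by
    calc ∑ s ∈ Ico (8 * m + 1 - J) (8 * m + 1), qs m s * (3 / 2 : ℝ) ^ (8 * m + 1 - J) ≤
          ∑ s ∈ Ico (8 * m + 1 - J) (8 * m + 1), qs m s * (3 / 2 : ℝ) ^ s := by
          refine Finset.sum_le_sum (fun s hs => ?_)
          refine mul_le_mul_of_nonneg_left ?_ (qs_nonneg m s)
          exact pow_le_pow_right₀ (by norm_num) (Finset.mem_Ico.1 hs).1
      _ ≤ ∑ s ∈ range (8 * m + 1), qs m s * (3 / 2 : ℝ) ^ s := by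
          refine Finset.sum_le_sum_of_subset_of_nonneg ?_ ?_
          · intro s hs
            exact Finset.mem_range.2 (Finset.mem_Ico.1 hs).2
          · intro s _ _
            exact mul_nonneg (qs_nonneg m s) (by positivity)
  rw [← Finset.sum_mul] at h3
  have h4 : (3 / 2 : ℝ) ^ (8 * m + 1 - J) * (3 / 2 : ℝ) ^ J = (3 / 2 : ℝ) ^ (8 * m + 1) := by
    rw [← pow_add]
    congr 1
    omega
  have h5 : 0 ≤ ∑ s ∈ Ico (8 * m + 1 - J) (8 * m + 1), qs m s :=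
    Finset.sum_nonneg (fun s _ => qs_nonneg m s)
  have h6 : (24 : ℝ) ^ m ≤ (3 / 2 : ℝ) ^ (8 * m + 1) := by
    have h61 : (24 : ℝ) ^ m ≤ ((3 / 2 : ℝ) ^ 8) ^ m :=
      pow_le_pow_left₀ (by norm_num) (by norm_num) m
    rw [← pow_mul] at h61
    refine le_trans h61 ?_
    exact pow_le_pow_right₀ (by norm_num) (by omega)
  have h7 : (∑ s ∈ Ico (8 * m + 1 - J) (8 * m + 1), qs m s) * (3 / 2 : ℝ) ^ (8 * m + 1) ≤
      (3 / 2 : ℝ) ^ J * 3 ^ m := by
    rw [← h4, ← mul_assoc, mul_comm ((3 / 2 : ℝ) ^ J)]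
    exact mul_le_mul_of_nonneg_right (le_trans h3 h1) (by positivity)
  have h8 : (∑ s ∈ Ico (8 * m + 1 - J) (8 * m + 1), qs m s) * (24 : ℝ) ^ m ≤
      (3 / 2 : ℝ) ^ J * 3 ^ m := le_trans (mul_le_mul_of_nonneg_left h6 h5) h7
  have h9 : (24 : ℝ) ^ m = 3 ^ m * 8 ^ m := by rw [← mul_pow]; norm_num
  rw [h9] at h8
  have h10 : (0 : ℝ) < 3 ^ m := by positivity
  have h11 : (0 : ℝ) < 8 ^ m := by positivity
  have h12 : (∑ s ∈ Ico (8 * m + 1 - J) (8 * m + 1), qs m s) * (8 : ℝ) ^ m ≤ (3 / 2 : ℝ) ^ J := by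
    have h13 : (3 : ℝ) ^ m * ((∑ s ∈ Ico (8 * m + 1 - J) (8 * m + 1), qs m s) * (8 : ℝ) ^ m) ≤
        3 ^ m * (3 / 2 : ℝ) ^ J := by linarith
    exact le_of_mul_le_mul_left h13 h10
  rw [one_div, inv_pow, ← div_eq_mul_inv, le_div_iff₀ h11]
  exact h12

open Classical in
theorem hPs (hGen : StGen) (hNs : StNs) (hPd : StPd) (hPz : StPz) (hPc : StPc) (hPr2 : StPr2)
    (hPp : StPp) : StPs := by
  intro ε hε
  obtain ⟨C, hC, hPc⟩ := hPc
  obtain ⟨m0, hm0, hm0C⟩ := ps_m0 hC (show 0 < ε / 8 by positivity)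
  set J : ℕ := 2 * 3 ^ (m0 - 1) with hJ
  have hJ1 : 1 ≤ J := by
    have : 0 < 3 ^ (m0 - 1) := by positivity
    omega
  have hJ0 : (0 : ℝ) < J := by exact_mod_cast hJ1
  have h3J : (3 : ℝ) ^ m0 = 3 / 2 * J := by
    obtain ⟨k, rfl⟩ : ∃ k, m0 = k + 1 := ⟨m0 - 1, by omega⟩
    rw [hJ, Nat.add_sub_cancel, pow_succ]
    push_cast
    ring
  obtain ⟨m1, hm1, hm1C⟩ := ps_m1 (show 0 < 2 * (J : ℝ) * (3 / 2 : ℝ) ^ J by positivity)
    (show 0 < ε / 2 by positivity) (max m0 J)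
  refine ⟨1 / 2 ^ (J + 1), by positivity, m1, ?_⟩
  intro m hm
  have hmm0 : m0 ≤ m := le_trans (le_trans (le_max_left _ _) hm1) hm
  have hmJ : J ≤ m := le_trans (le_trans (le_max_right _ _) hm1) hm
  have h3m : (0 : ℝ) < 3 ^ m := by positivity
  have hm_1 : 1 ≤ m := by omega
  -- the two exceptional sets
  set E : ℕ → ℕ → ℝ := fun j r => ∑ s ∈ Ico (8 * m + 1 - J) (8 * m + 1), ns m m s (2 ^ j * r)
    with hE
  set G1 := (range (3 ^ m)).filter (fun r => ¬ 3 ∣ r ∧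
    ∑ j ∈ range J, 3 ^ m * pim m (2 ^ j * r) < J) with hG1
  set G2 := (range (3 ^ m)).filter (fun r => ∃ j ∈ range J, 1 / 2 ≤ 3 ^ m * E j r) with hG2
  have hE0 : ∀ j r, 0 ≤ E j r := fun j r => Finset.sum_nonneg (fun s _ => ns_nonneg _ _ _ _)
  have hsub : (range (3 ^ m)).filter (fun r => ¬ 3 ∣ r ∧ 3 ^ m * pim m r < 1 / 2 ^ (J + 1)) ⊆
      G1 ∪ G2 := by
    intro r hr
    obtain ⟨hr1, hr2, hr3⟩ := Finset.mem_filter.1 hr
    by_contra hcon
    rw [Finset.mem_union, not_or] at hcon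
    obtain ⟨hn1, hn2⟩ := hcon
    rw [hG1, Finset.mem_filter, not_and, not_and] at hn1
    have hn1' := not_lt.1 (hn1 hr1 hr2)
    rw [hG2, Finset.mem_filter, not_and] at hn2
    have hn2' := hn2 hr1
    push Not at hn2'
    -- some j
    have hj : ∃ j ∈ range J, 1 ≤ 3 ^ m * pim m (2 ^ j * r) := by
      by_contra hc
      push Not at hc
      have : ∑ j ∈ range J, 3 ^ m * pim m (2 ^ j * r) < ∑ j ∈ range J, (1 : ℝ) :=
        Finset.sum_lt_sum_of_nonempty (Finset.nonempty_range_iff.2 (by omega)) hc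
      rw [Finset.sum_const, Finset.card_range, nsmul_eq_mul, mul_one] at this
      linarith
    obtain ⟨j, hj, hj1⟩ := hj
    have hjJ := Finset.mem_range.1 hj
    have h1 := hPd m j r hm_1 (by omega)
    have h2 : pim m (2 ^ j * r) ≤ 2 ^ j * pim m r + E j r := by
      have h21 : pim m (2 ^ j * r) = ∑ s ∈ range (8 * m + 1 - j), ns m m s (2 ^ j * r) +
          ∑ s ∈ Ico (8 * m + 1 - j) (8 * m + 1), ns m m s (2 ^ j * r) := by
        unfold pim
        exact (Finset.sum_range_add_sum_Ico _ (by omega)).symm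
      have h22 : ∑ s ∈ Ico (8 * m + 1 - j) (8 * m + 1), ns m m s (2 ^ j * r) ≤ E j r := by
        refine Finset.sum_le_sum_of_subset_of_nonneg ?_ (fun s _ _ => ns_nonneg _ _ _ _)
        exact Finset.Ico_subset_Ico (by omega) le_rfl
      linarith
    have h3 : 3 ^ m * pim m (2 ^ j * r) ≤ 2 ^ j * (3 ^ m * pim m r) + 3 ^ m * E j r := by
      have := mul_le_mul_of_nonneg_left h2 h3m.le
      linarith
    have h4 := hn2' j hj
    have h5 : (1 : ℝ) / 2 ≤ 2 ^ j * (3 ^ m * pim m r) := by linarith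
    have h6 : (2 : ℝ) ^ j * (3 ^ m * pim m r) < 2 ^ j * (1 / 2 ^ (J + 1)) :=
      mul_lt_mul_of_pos_left hr3 (by positivity)
    have h7 : (2 : ℝ) ^ j * (1 / 2 ^ (J + 1)) ≤ 1 / 2 := by
      rw [mul_one_div, div_le_div_iff₀ (by positivity) (by norm_num), pow_succ, one_mul]
      have : (2 : ℝ) ^ j ≤ 2 ^ J := pow_le_pow_right₀ (by norm_num) hjJ.le
      linarith
    linarith
  -- first set
  have hD0 : ∀ r : ℕ, ¬ 3 ∣ r → 21 / 16 * (J : ℝ) ≤ ∑ j ∈ range J, 3 ^ m0 * pim m0 (2 ^ j * r) := by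
    intro r hr
    have h1 := hPr2 m0 r (fun M => 3 ^ m0 * pim m0 M) hm0 hr (fun M => by
      show (3 : ℝ) ^ m0 * pim m0 (M + 3 ^ m0) = 3 ^ m0 * pim m0 M
      rw [hNs.2.2.1])
    rw [hJ, h1, ← Finset.mul_sum]
    have h2 := hPz.2 m0 hm0
    have h3 : (1 : ℝ) / 8 ^ m0 ≤ 1 / 8 := by
      have : (8 : ℝ) ^ 1 ≤ 8 ^ m0 := pow_le_pow_right₀ (by norm_num) hm0
      rw [pow_one] at this
      exact one_div_le_one_div_of_le (by norm_num) this
    have h4 : (7 / 8 : ℝ) ≤ ∑ M ∈ (range (3 ^ m0)).filter (fun M => ¬ 3 ∣ M), pim m0 M := by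
      linarith
    have h5 := mul_le_mul_of_nonneg_left h4 (show (0 : ℝ) ≤ 3 ^ m0 by positivity)
    have h6 : (21 / 16 : ℝ) * ((2 * 3 ^ (m0 - 1) : ℕ) : ℝ) = 3 ^ m0 * (7 / 8) := by
      rw [← hJ, h3J]
      ring
    rw [h6]
    exact h5
  have hper : ∀ M, |3 ^ m * pim m (M + 3 ^ m) - 3 ^ m0 * pim m0 (M + 3 ^ m)| =
      |3 ^ m * pim m M - 3 ^ m0 * pim m0 M| := by
    intro M
    have h1 : ∀ k : ℕ, pim m0 (M + k * 3 ^ m0) = pim m0 M := by
      intro k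
      induction k with
      | zero => simp
      | succ k ih =>
        rw [show M + (k + 1) * 3 ^ m0 = M + k * 3 ^ m0 + 3 ^ m0 by ring, hNs.2.2.1, ih]
    have h2 : (3 : ℕ) ^ m = 3 ^ (m - m0) * 3 ^ m0 := by
      rw [← pow_add]
      congr 1
      omega
    have h3 : pim m0 (M + 3 ^ m) = pim m0 M := by
      rw [h2]
      exact h1 _
    rw [hNs.2.2.1, h3]
  have hc1 : (G1.card : ℝ) ≤ ε / 2 * 3 ^ m := by
    have h1 : ∑ r ∈ G1, (5 / 16 * (J : ℝ)) ≤ ∑ r ∈ range (3 ^ m), ∑ j ∈ range J,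
        |3 ^ m * pim m (2 ^ j * r) - 3 ^ m0 * pim m0 (2 ^ j * r)| := by
      calc ∑ r ∈ G1, (5 / 16 * (J : ℝ)) ≤ ∑ r ∈ G1, ∑ j ∈ range J,
            |3 ^ m * pim m (2 ^ j * r) - 3 ^ m0 * pim m0 (2 ^ j * r)| := by
            refine Finset.sum_le_sum (fun r hr => ?_)
            obtain ⟨_, hr2, hr3⟩ := Finset.mem_filter.1 hr
            have h2 := hD0 r hr2
            have h3 : ∑ j ∈ range J, 3 ^ m0 * pim m0 (2 ^ j * r) -
                ∑ j ∈ range J, 3 ^ m * pim m (2 ^ j * r) ≤ ∑ j ∈ range J,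
                |3 ^ m * pim m (2 ^ j * r) - 3 ^ m0 * pim m0 (2 ^ j * r)| := by
              rw [← Finset.sum_sub_distrib]
              refine Finset.sum_le_sum (fun j _ => ?_)
              rw [abs_sub_comm]
              exact le_abs_self _
            linarith
        _ ≤ _ := by
            refine Finset.sum_le_sum_of_subset_of_nonneg (Finset.filter_subset _ _) ?_
            intro r _ _
            exact Finset.sum_nonneg (fun j _ => abs_nonneg _)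
    rw [Finset.sum_comm] at h1
    have h2 : ∀ j ∈ range J, ∑ r ∈ range (3 ^ m),
        |3 ^ m * pim m (2 ^ j * r) - 3 ^ m0 * pim m0 (2 ^ j * r)| ≤ 3 ^ m * (ε / 8) := by
      intro j _
      rw [hPp m j (fun M => |3 ^ m * pim m M - 3 ^ m0 * pim m0 M|) hper]
      have h3 : ∀ M ∈ range (3 ^ m), |3 ^ m * pim m M - 3 ^ m0 * pim m0 M| =
          3 ^ m * |pim m M - pim m0 M / 3 ^ (m - m0)| := by
        intro M _
        rw [← abs_of_pos h3m, ← abs_mul, abs_of_pos h3m]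
        congr 1
        have h4 : (3 : ℝ) ^ m = 3 ^ (m - m0) * 3 ^ m0 := by
          rw [← pow_add]
          congr 1
          omega
        rw [mul_sub, h4]
        field_simp
      rw [Finset.sum_congr rfl h3, ← Finset.mul_sum]
      exact mul_le_mul_of_nonneg_left (le_trans (hPc m0 m hm0 hmm0) hm0C) h3m.le
    have h5 := le_trans h1 (Finset.sum_le_sum h2)
    rw [Finset.sum_const, Finset.sum_const, Finset.card_range, nsmul_eq_mul, nsmul_eq_mul] at h5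
    have h6 : (J : ℝ) * ((G1.card : ℝ) * (5 / 16)) ≤ J * (3 ^ m * (ε / 8)) := by linarith
    have h7 := le_of_mul_le_mul_left h6 hJ0
    have h8 : 0 < 3 ^ m * ε := by positivity
    linarith
  -- second set
  have hc2 : (G2.card : ℝ) ≤ ε / 2 * 3 ^ m := by
    have h1 : ∑ r ∈ G2, (1 / 2 : ℝ) ≤ ∑ r ∈ range (3 ^ m), ∑ j ∈ range J, 3 ^ m * E j r := by
      calc ∑ r ∈ G2, (1 / 2 : ℝ) ≤ ∑ r ∈ G2, ∑ j ∈ range J, 3 ^ m * E j r := by
            refine Finset.sum_le_sum (fun r hr => ?_)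
            obtain ⟨_, j, hj, hj1⟩ := Finset.mem_filter.1 hr
            refine le_trans hj1 ?_
            exact Finset.single_le_sum (f := fun j => 3 ^ m * E j r)
              (fun j _ => mul_nonneg h3m.le (hE0 j r)) hj
        _ ≤ _ := by
            refine Finset.sum_le_sum_of_subset_of_nonneg (Finset.filter_subset _ _) ?_
            intro r _ _
            exact Finset.sum_nonneg (fun j _ => mul_nonneg h3m.le (hE0 j r))
    rw [Finset.sum_comm] at h1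
    have h2 : ∀ j ∈ range J, ∑ r ∈ range (3 ^ m), 3 ^ m * E j r ≤
        3 ^ m * ((3 / 2 : ℝ) ^ J * (1 / 8 : ℝ) ^ m) := by
      intro j _
      rw [← Finset.mul_sum]
      refine mul_le_mul_of_nonneg_left ?_ h3m.le
      have h3 := hPp m j (fun M => ∑ s ∈ Ico (8 * m + 1 - J) (8 * m + 1), ns m m s M)
        (fun M => Finset.sum_congr rfl (fun s _ => hNs.1 m m s M))
      have h4 : ∑ r ∈ range (3 ^ m), E j r =
          ∑ s ∈ Ico (8 * m + 1 - J) (8 * m + 1), qs m s := by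
        show ∑ r ∈ range (3 ^ m), (fun M => ∑ s ∈ Ico (8 * m + 1 - J) (8 * m + 1), ns m m s M)
          (2 ^ j * r) = _
        rw [h3, Finset.sum_comm]
        exact Finset.sum_congr rfl (fun s _ => hNs.2.2.2.1 m m s)
      rw [h4]
      exact ps_tail hGen (by omega)
    have h5 := le_trans h1 (Finset.sum_le_sum h2)
    rw [Finset.sum_const, Finset.sum_const, Finset.card_range, nsmul_eq_mul, nsmul_eq_mul] at h5
    have h6 := hm1C m hm
    have h7 : 3 ^ m * (2 * (J : ℝ) * (3 / 2 : ℝ) ^ J * (1 / 8 : ℝ) ^ m) ≤ 3 ^ m * (ε / 2) :=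
      mul_le_mul_of_nonneg_left h6 h3m.le
    linarith
  have h1 := Finset.card_le_card hsub
  have h2 := Finset.card_union_le G1 G2
  have h3 : (((range (3 ^ m)).filter (fun r => ¬ 3 ∣ r ∧
      3 ^ m * pim m r < 1 / 2 ^ (J + 1))).card : ℝ) ≤ (G1.card : ℝ) + G2.card := by
    exact_mod_cast le_trans h1 h2
  linarith

end Pool.Agent.Helper76.PRD
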