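import Pool.Agent.Helper76.DE.StT

/-!
# Project PRD, module Sg: countable additivity
-/

set_option autoImplicit false

noncomputable section

namespace Pool.Agent.Helper76.PRD

open Pool.Agent.Helper76.ND Pool.Agent.Helper76.DE Finset

theorem T_pos {n : ℕ} (h : 1 ≤ n) : 1 ≤ T n := by
  unfold T
  split_ifs <;> omega

theorem Mean_congr {f g : ℕ → ℝ} {d : ℝ} (h : ∀ n, 1 ≤ n → f n = g n) (hf : Mean f d) :
    Mean g d := by
  unfold Mean at hf ⊢
  refine hf.congr (fun x => ?_)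
  rw [Finset.sum_congr rfl (fun n hn => h n (Finset.mem_Icc.1 hn).1)]

theorem Mean_unique {f : ℕ → ℝ} {d e : ℝ} (h : Mean f d) (h' : Mean f e) : d = e :=
  tendsto_nhds_unique h h'

theorem Mean_add {f g : ℕ → ℝ} {d e : ℝ} (h : Mean f d) (h' : Mean g e) :
    Mean (fun n => f n + g n) (d + e) := by
  unfold Mean at *
  refine (h.add h').congr (fun _ => ?_)
  rw [Finset.sum_add_distrib, add_div]

theorem Mean_zero : Mean (fun _ => 0) 0 := by
  unfold Mean
  simp

theorem Mean_sum {f : ℕ → ℕ → ℝ} {d : ℕ → ℝ} (j : ℕ) (h : ∀ i, Mean (f i) (d i)) :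
    Mean (fun n => ∑ i ∈ range j, f i n) (∑ i ∈ range j, d i) := by
  induction j with
  | zero => simpa using Mean_zero
  | succ j ih =>
    simp only [Finset.sum_range_succ]
    exact Mean_add ih (h j)

theorem Mean_nonneg {f : ℕ → ℝ} {d : ℝ} (hf : ∀ n, 0 ≤ f n) (h : Mean f d) : 0 ≤ d :=
  ge_of_tendsto' h (fun _ => div_nonneg (Finset.sum_nonneg (fun n _ => hf n)) (Nat.cast_nonneg _))

open Classical in
/-- indicator of a proposition -/
def one (p : Prop) : ℝ := if p then 1 else 0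

theorem one_pos' {p : Prop} (h : p) : one p = 1 := by unfold one; rw [if_pos h]

theorem one_neg' {p : Prop} (h : ¬ p) : one p = 0 := by unfold one; rw [if_neg h]

theorem one_mem (p : Prop) : 0 ≤ one p ∧ one p ≤ 1 := by
  unfold one
  split_ifs <;> norm_num

theorem one_congr {p q : Prop} (h : p ↔ q) : one p = one q := by rw [propext h]

theorem mean_set (hDt : StDt) {E : ℕ → Prop} (hE : ∀ n, 1 ≤ n → (E (T n) ↔ E n)) :
    ∃ d : ℝ, Mean (fun n => one (E n)) d := by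
  obtain ⟨K, _, h⟩ := hDt 1 one_pos
  obtain ⟨d, hd, _⟩ := h 1 (fun n => one (E n)) le_rfl (fun N => one_mem _)
    (fun N hN => one_congr (hE N (by omega)))
  exact ⟨d, hd⟩

theorem sg_aux (hDt : StDt) (hFi : StFi) (E : ℕ → Set ℕ)
    (hdis : ∀ i j, i ≠ j → ∀ n, 1 ≤ n → n ∈ E i → n ∉ E j)
    (hinv : ∀ i n, 1 ≤ n → (T n ∈ E i ↔ n ∈ E i)) :
    ∃ d : ℕ → ℝ, (∀ i, Mean (fun n => one (n ∈ E i)) (d i)) ∧
      ∃ D : ℝ, Mean (fun n => one (∃ i, n ∈ E i)) D ∧ HasSum d D := by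
  choose d hd using fun i => mean_set (E := fun n => n ∈ E i) hDt (hinv i)
  refine ⟨d, hd, ?_⟩
  have hU : ∀ n, 1 ≤ n → ((∃ i, T n ∈ E i) ↔ (∃ i, n ∈ E i)) := by
    intro n hn
    constructor
    · rintro ⟨i, hi⟩
      exact ⟨i, (hinv i n hn).1 hi⟩
    · rintro ⟨i, hi⟩
      exact ⟨i, (hinv i n hn).2 hi⟩
  obtain ⟨D, hD⟩ := mean_set (E := fun n => ∃ i, n ∈ E i) hDt hU
  have hV : ∀ j, ∀ n, 1 ≤ n → (((∃ i, T n ∈ E i) ∧ ∀ i < j, T n ∉ E i) ↔
      ((∃ i, n ∈ E i) ∧ ∀ i < j, n ∉ E i)) := by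
    intro j n hn
    constructor
    · rintro ⟨⟨i, hi⟩, h⟩
      exact ⟨⟨i, (hinv i n hn).1 hi⟩, fun i' hi' hc => h i' hi' ((hinv i' n hn).2 hc)⟩
    · rintro ⟨⟨i, hi⟩, h⟩
      exact ⟨⟨i, (hinv i n hn).2 hi⟩, fun i' hi' hc => h i' hi' ((hinv i' n hn).1 hc)⟩
  choose v hv using fun j => mean_set (E := fun n => (∃ i, n ∈ E i) ∧ ∀ i < j, n ∉ E i) hDt (hV j)
  refine ⟨D, hD, ?_⟩
  have hd0 : ∀ i, 0 ≤ d i := fun i => Mean_nonneg (fun n => (one_mem _).1) (hd i)
  have hv0 : ∀ j, 0 ≤ v j := fun j => Mean_nonneg (fun n => (one_mem _).1) (hv j)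
  -- the decomposition
  have hdec : ∀ j, D = ∑ i ∈ range j, d i + v j := by
    intro j
    refine Mean_unique hD (Mean_congr (fun n hn => ?_) (Mean_add (Mean_sum j hd) (hv j)))
    show (∑ i ∈ range j, one (n ∈ E i)) +
      one ((∃ i, n ∈ E i) ∧ ∀ i < j, n ∉ E i) = one (∃ i, n ∈ E i)
    by_cases hex : ∃ i, n ∈ E i
    · obtain ⟨i0, hi0⟩ := hex
      rw [one_pos' (⟨i0, hi0⟩ : ∃ i, n ∈ E i)]
      have hun : ∀ i, i ≠ i0 → n ∉ E i := fun i hi => hdis i0 i (Ne.symm hi) n hn hi0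
      by_cases hij : i0 < j
      · rw [one_neg' (fun h => h.2 i0 hij hi0), add_zero,
          Finset.sum_eq_single_of_mem i0 (Finset.mem_range.2 hij)
            (fun i _ hi => one_neg' (hun i hi)), one_pos' hi0]
      · have hV' : (∃ i, n ∈ E i) ∧ ∀ i < j, n ∉ E i :=
          ⟨⟨i0, hi0⟩, fun i hi => hun i (by omega)⟩
        rw [one_pos' hV', Finset.sum_eq_zero
          (fun i hi => one_neg' (hV'.2 i (Finset.mem_range.1 hi))), zero_add]
    · rw [one_neg' hex, one_neg' (fun h => hex h.1), add_zero]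
      exact Finset.sum_eq_zero (fun i _ => one_neg' (fun h => hex ⟨i, h⟩))
  -- the remainder tends to zero
  obtain ⟨C, hC, hFi⟩ := hFi.1
  have hsmall : ∀ B : ℕ, 2 ≤ B → ∃ j0, ∀ j ≥ j0, v j ≤ C / Real.log B ^ (1 / 1600 : ℝ) := by
    intro B hB
    -- choose an index for every n ≤ B
    have hidx : ∃ j0 : ℕ, ∀ n ≤ B, ∀ i, 1 ≤ n → n ∈ E i → i < j0 := by
      have h1 : ∀ n : ℕ, ∃ k : ℕ, ∀ i, 1 ≤ n → n ∈ E i → i < k := by
        intro n
        by_cases hex : ∃ i, n ∈ E i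
        · obtain ⟨i0, hi0⟩ := hex
          refine ⟨i0 + 1, fun i hn hi => ?_⟩
          by_contra hc
          exact hdis i0 i (by omega) n hn hi0 hi
        · exact ⟨0, fun i _ hi => absurd ⟨i, hi⟩ hex⟩
      choose k hk using h1
      refine ⟨(range (B + 1)).sup k, fun n hn i hn1 hi => ?_⟩
      have h2 : k n ≤ (range (B + 1)).sup k :=
        Finset.le_sup (f := k) (Finset.mem_range.2 (by omega))
      exact lt_of_lt_of_le (hk n i hn1 hi) h2
    obtain ⟨j0, hj0⟩ := hidx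
    refine ⟨j0, fun j hj => ?_⟩
    refine le_of_tendsto (hv j) ?_
    filter_upwards [Filter.eventually_ge_atTop 1] with x hx
    have hx0 : (0 : ℝ) < x := by exact_mod_cast hx
    rw [div_le_iff₀ hx0]
    classical
    have hle : ∀ n ∈ Icc 1 x, one ((∃ i, n ∈ E i) ∧ ∀ i < j, n ∉ E i) ≤
        one (∀ k, B < T^[k] n) := by
      intro n hn
      by_cases hn2 : (∃ i, n ∈ E i) ∧ ∀ i < j, n ∉ E i
      · rw [one_pos' hn2, one_pos']
        intro k
        have hn3 := (Finset.mem_Icc.1 hn).1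
        have hit : ∀ k, 1 ≤ T^[k] n ∧
            ((∃ i, T^[k] n ∈ E i) ∧ ∀ i < j, T^[k] n ∉ E i) := by
          intro k
          induction k with
          | zero => exact ⟨hn3, hn2⟩
          | succ k ih =>
            rw [Function.iterate_succ_apply']
            exact ⟨T_pos ih.1, (hV j _ ih.1).2 ih.2⟩
        obtain ⟨h1, ⟨i, hi⟩, h2⟩ := hit k
        by_contra hc
        have h3 := hj0 (T^[k] n) (by omega) i h1 hi
        exact h2 i (by omega) hi
      · rw [one_neg' hn2]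
        exact (one_mem _).1
    have h2 := hFi B x hB
    calc ∑ n ∈ Icc 1 x, one ((∃ i, n ∈ E i) ∧ ∀ i < j, n ∉ E i)
        ≤ ∑ n ∈ Icc 1 x, one (∀ k, B < T^[k] n) := Finset.sum_le_sum hle
      _ = (((Icc 1 x).filter (fun n => ∀ k, B < T^[k] n)).card : ℝ) := by
          unfold one
          rw [← Finset.sum_filter, Finset.sum_const, nsmul_eq_mul, mul_one]
      _ ≤ C * x / Real.log B ^ (1 / 1600 : ℝ) := by convert h2 using 3
      _ = C / Real.log B ^ (1 / 1600 : ℝ) * x := by ring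
  have hvlim : Filter.Tendsto v Filter.atTop (nhds 0) := by
    rw [Metric.tendsto_atTop]
    intro ε hε
    have h1 : Filter.Tendsto (fun x : ℝ => Real.log x ^ (-(1 / 1600) : ℝ)) Filter.atTop
        (nhds 0) :=
      (tendsto_rpow_neg_atTop (by norm_num : (0 : ℝ) < 1 / 1600)).comp Real.tendsto_log_atTop
    have h2 : ∀ᶠ B : ℕ in Filter.atTop, Real.log (B : ℝ) ^ (-(1 / 1600) : ℝ) < ε / C :=
      (h1.comp tendsto_natCast_atTop_atTop).eventually_lt_const (by positivity)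
    obtain ⟨B, hB1, hB2⟩ := (h2.and (Filter.eventually_ge_atTop 2)).exists
    obtain ⟨j0, hj0⟩ := hsmall B hB2
    refine ⟨j0, fun j hj => ?_⟩
    rw [Real.dist_eq, sub_zero, abs_of_nonneg (hv0 j)]
    refine lt_of_le_of_lt (hj0 j hj) ?_
    have hlog : 0 ≤ Real.log (B : ℝ) := Real.log_nonneg (by
      have : (2 : ℝ) ≤ B := by exact_mod_cast hB2
      linarith)
    rw [div_eq_mul_inv, ← Real.rpow_neg hlog]
    calc C * Real.log (B : ℝ) ^ (-(1 / 1600) : ℝ) < C * (ε / C) :=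
          mul_lt_mul_of_pos_left hB1 hC
      _ = ε := by field_simp
  rw [hasSum_iff_tendsto_nat_of_nonneg hd0]
  have h1 : (fun j => ∑ i ∈ range j, d i) = fun j => D - v j := by
    funext j
    have := hdec j
    linarith
  rw [h1]
  simpa using (tendsto_const_nhds (x := D)).sub hvlim

theorem hSg (hDt : StDt) (hFi : StFi) : StSg := by
  intro E hdis hinv
  obtain ⟨d, hd, D, hD, hs⟩ := sg_aux hDt hFi E hdis hinv
  refine ⟨d, fun i => ?_, D, ?_, hs⟩
  · exact Mean_congr (fun n _ => by unfold one; rfl) (hd i)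
  · exact Mean_congr (fun n _ => by unfold one; rfl) hD

end Pool.Agent.Helper76.PRD
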