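import Pool.Agent.Helper76.DE.StN

/-!
# Project PRD, module Fn: natural density from dyadic blocks
-/

set_option autoImplicit false

noncomputable section

namespace Pool.Agent.Helper76.PRD

open Pool.Agent.Helper76.ND Pool.Agent.Helper76.DE Finset

open Classical in
theorem hFn (hFb : StFb) : StFn := by
  intro δ hδ ε hε
  obtain ⟨c, w0, hc, hw01, hFb⟩ := hFb δ hδ (ε / 2) (by positivity)
  refine ⟨c, hc, ⌈6 * w0 / ε⌉₊, fun X hX => ?_⟩
  -- induction over the blocks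
  have key : ∀ n : ℕ, ∀ Y : ℝ, 0 ≤ Y → w0 ≤ Y / 2 ^ n ∨ n = 0 →
      (((Icc 1 ⌊Y⌋₊).filter (fun a : ℕ => Y / 2 ^ n ≤ a ∧ ¬ 3 ∣ a ∧ δ a < c / a)).card : ℝ) ≤
        ε / 2 * (Y - Y / 2 ^ n) + (if n = 0 then 1 else 1) := by
    intro n
    induction n with
    | zero =>
      intro Y hY _
      have h1 : (Icc 1 ⌊Y⌋₊).filter (fun a : ℕ => Y / 2 ^ 0 ≤ a ∧ ¬ 3 ∣ a ∧ δ a < c / a) ⊆
          {⌊Y⌋₊} := by
        intro a ha
        obtain ⟨ha1, ha2, _⟩ := Finset.mem_filter.1 ha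
        rw [pow_zero, div_one] at ha2
        have h2 := (Finset.mem_Icc.1 ha1).2
        have h3 : ⌊Y⌋₊ ≤ a := Nat.floor_le_of_le ha2
        exact Finset.mem_singleton.2 (by omega)
      have h2 := Finset.card_le_card h1
      rw [Finset.card_singleton] at h2
      have h3 : (((Icc 1 ⌊Y⌋₊).filter (fun a : ℕ => Y / 2 ^ 0 ≤ a ∧ ¬ 3 ∣ a ∧
          δ a < c / a)).card : ℝ) ≤ 1 := by exact_mod_cast h2
      simpa using h3
    | succ n ih =>
      intro Y hY hw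
      have hw' : w0 ≤ Y / 2 ^ (n + 1) := by
        rcases hw with h | h
        · exact h
        · exact absurd h (Nat.succ_ne_zero n)
      have hYn : Y / 2 ^ (n + 1) = Y / 2 / 2 ^ n := by
        rw [pow_succ, div_div, mul_comm]
      have h2n : (1 : ℝ) ≤ 2 ^ n := one_le_pow₀ (by norm_num)
      have hYw : w0 ≤ Y / 2 := by
        rw [hYn] at hw'
        have h1 : w0 * 2 ^ n ≤ Y / 2 := (le_div_iff₀ (by positivity)).1 hw'
        nlinarith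
      have h1 := ih (Y / 2) (by linarith) (Or.inl (by rw [← hYn]; exact hw'))
      have h2 := hFb (Y / 2) hYw
      have h3 : (Icc 1 ⌊Y⌋₊).filter (fun a : ℕ => Y / 2 ^ (n + 1) ≤ a ∧ ¬ 3 ∣ a ∧ δ a < c / a) ⊆
          ((Icc 1 ⌊Y / 2⌋₊).filter (fun a : ℕ => Y / 2 / 2 ^ n ≤ a ∧ ¬ 3 ∣ a ∧ δ a < c / a)) ∪
          ((Icc 1 ⌊2 * (Y / 2)⌋₊).filter (fun a : ℕ => Y / 2 ≤ a ∧ ¬ 3 ∣ a ∧ δ a < c / a)) := by
        intro a ha
        obtain ⟨ha1, ha2, ha3, ha4⟩ := Finset.mem_filter.1 ha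
        have ha5 := Finset.mem_Icc.1 ha1
        rw [Finset.mem_union]
        by_cases h : Y / 2 ≤ a
        · refine Or.inr (Finset.mem_filter.2 ⟨?_, h, ha3, ha4⟩)
          rw [show 2 * (Y / 2) = Y by ring]
          exact ha1
        · refine Or.inl (Finset.mem_filter.2 ⟨?_, by rw [← hYn]; exact ha2, ha3, ha4⟩)
          exact Finset.mem_Icc.2 ⟨ha5.1, Nat.le_floor (not_le.1 h).le⟩
      have h4 := Finset.card_le_card h3
      have h5 := le_trans h4 (Finset.card_union_le _ _)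
      have h6 : (((Icc 1 ⌊Y⌋₊).filter (fun a : ℕ => Y / 2 ^ (n + 1) ≤ a ∧ ¬ 3 ∣ a ∧
          δ a < c / a)).card : ℝ) ≤
          (((Icc 1 ⌊Y / 2⌋₊).filter (fun a : ℕ => Y / 2 / 2 ^ n ≤ a ∧ ¬ 3 ∣ a ∧
            δ a < c / a)).card : ℝ) +
          ((Icc 1 ⌊2 * (Y / 2)⌋₊).filter (fun a : ℕ => Y / 2 ≤ a ∧ ¬ 3 ∣ a ∧
            δ a < c / a)).card := by
        exact_mod_cast h5
      have h7 : (if n + 1 = 0 then (1 : ℝ) else 1) = 1 := by simp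
      have h8 : (if n = 0 then (1 : ℝ) else 1) = 1 := by simp
      rw [hYn] at h6
      rw [h7, hYn]
      rw [h8] at h1
      have h9 : ε / 2 * (Y - Y / 2 / 2 ^ n) = ε / 2 * (Y / 2 - Y / 2 / 2 ^ n) + ε / 2 * (Y / 2) := by
        ring
      linarith
  have hX1 : 6 * w0 / ε ≤ (X : ℝ) := le_trans (Nat.le_ceil _) (by exact_mod_cast hX)
  rw [div_le_iff₀ hε] at hX1
  have hX0 : (0 : ℝ) ≤ X := Nat.cast_nonneg _
  have hw00 : 0 < w0 := by linarith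
  by_cases hXw : w0 ≤ (X : ℝ)
  · obtain ⟨n, hn1, hn2⟩ := exists_nat_pow_near (x := (X : ℝ) / w0) (y := 2)
      (by rw [one_le_div hw00]; exact hXw) (by norm_num)
    have hp : (0 : ℝ) < 2 ^ n := by positivity
    have h1 : w0 ≤ (X : ℝ) / 2 ^ n := by
      rw [le_div_iff₀ hp]
      rw [le_div_iff₀ hw00] at hn1
      linarith
    have h2 : (X : ℝ) / 2 ^ n ≤ 2 * w0 := by
      rw [div_le_iff₀ hp]
      rw [div_lt_iff₀ hw00, pow_succ] at hn2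
      linarith
    have h3 := key n X hX0 (Or.inl h1)
    rw [Nat.floor_natCast] at h3
    have h30 : (if n = 0 then (1 : ℝ) else 1) = 1 := by simp
    rw [h30] at h3
    -- the small elements
    have h4 : (Icc 1 X).filter (fun a : ℕ => ¬ 3 ∣ a ∧ δ a < c / a) ⊆
        ((Icc 1 X).filter (fun a : ℕ => (X : ℝ) / 2 ^ n ≤ a ∧ ¬ 3 ∣ a ∧ δ a < c / a)) ∪
        Ico 1 ⌈(X : ℝ) / 2 ^ n⌉₊ := by
      intro a ha
      obtain ⟨ha1, ha3, ha4⟩ := Finset.mem_filter.1 ha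
      rw [Finset.mem_union]
      by_cases h : (X : ℝ) / 2 ^ n ≤ a
      · exact Or.inl (Finset.mem_filter.2 ⟨ha1, h, ha3, ha4⟩)
      · refine Or.inr (Finset.mem_Ico.2 ⟨(Finset.mem_Icc.1 ha1).1, ?_⟩)
        exact Nat.lt_ceil.2 (not_le.1 h)
    have h5 := le_trans (Finset.card_le_card h4) (Finset.card_union_le _ _)
    rw [Nat.card_Ico] at h5
    have h6 : ((⌈(X : ℝ) / 2 ^ n⌉₊ - 1 : ℕ) : ℝ) ≤ (X : ℝ) / 2 ^ n := by
      have h7 : 1 ≤ ⌈(X : ℝ) / 2 ^ n⌉₊ := Nat.one_le_ceil_iff.2 (by linarith)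
      rw [Nat.cast_sub h7]
      have h8 := Nat.ceil_lt_add_one (show 0 ≤ (X : ℝ) / 2 ^ n by linarith)
      push_cast
      linarith
    have h9 : (((Icc 1 X).filter (fun a : ℕ => ¬ 3 ∣ a ∧ δ a < c / a)).card : ℝ) ≤
        (((Icc 1 X).filter (fun a : ℕ => (X : ℝ) / 2 ^ n ≤ a ∧ ¬ 3 ∣ a ∧
          δ a < c / a)).card : ℝ) + ((⌈(X : ℝ) / 2 ^ n⌉₊ - 1 : ℕ) : ℝ) := by
      exact_mod_cast h5
    have h10 : 0 ≤ ε / 2 * ((X : ℝ) / 2 ^ n) := by positivity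
    linarith
  · have h1 : (((Icc 1 X).filter (fun a : ℕ => ¬ 3 ∣ a ∧ δ a < c / a)).card : ℝ) ≤ X := by
      have h2 := Finset.card_filter_le (Icc 1 X) (fun a : ℕ => ¬ 3 ∣ a ∧ δ a < c / a)
      rw [Nat.card_Icc, Nat.add_sub_cancel] at h2
      exact_mod_cast h2
    have h3 := not_le.1 hXw
    -- here ε > 4
    have h4 : 6 * (X : ℝ) ≤ X * ε := by linarith
    linarith

end Pool.Agent.Helper76.PRD
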